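import Mathlib

set_option autoImplicit false

/-! # Groups of odd order acting freely on a plane with determinant one are cyclic -/

namespace Pool.Agent.Run7.h40.SICS.Cyc

open Finset Matrix

variable {K : Type*} [Field K] {G : Type*} [Group G] [Fintype G]

/-- two by two matrices -/
abbrev M2 (K : Type*) := Matrix (Fin 2) (Fin 2) K

omit [Fintype G] in
theorem inv_eq {ρ : G →* M2 K} (hdet : ∀ g, (ρ g).det = 1) (g : G) :
    ρ g⁻¹ = !![ρ g 1 1, -ρ g 0 1; -ρ g 1 0, ρ g 0 0] := by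
  have h1 : ρ g * ρ g⁻¹ = 1 := by rw [← map_mul, mul_inv_cancel, map_one]
  have h2 := Matrix.mul_adjugate (ρ g)
  rw [hdet, one_smul] at h2
  have h3 : IsUnit (ρ g) := (Group.isUnit g).map ρ
  have h4 : ρ g⁻¹ = (ρ g).adjugate := h3.mul_left_cancel (by rw [h1, h2])
  rw [h4, Matrix.adjugate_fin_two]

omit [Fintype G] in
theorem trace_inv {ρ : G →* M2 K} (hdet : ∀ g, (ρ g).det = 1) (g : G) :
    (ρ g⁻¹).trace = (ρ g).trace := by
  rw [inv_eq hdet, Matrix.trace_fin_two, Matrix.trace_fin_two]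
  simp [add_comm]

omit [Fintype G] in
theorem trace_sq {ρ : G →* M2 K} (hdet : ∀ g, (ρ g).det = 1) (g : G) :
    (ρ (g ^ 2)).trace = (ρ g).trace ^ 2 - 2 := by
  have h := hdet g
  rw [Matrix.det_fin_two] at h
  rw [pow_two, map_mul, Matrix.trace_fin_two, Matrix.trace_fin_two, Matrix.mul_apply,
    Matrix.mul_apply, Fin.sum_univ_two, Fin.sum_univ_two]
  linear_combination -2 * h

omit [Fintype G] in
theorem unit_sub {ρ : G →* M2 K} (hdet : ∀ g, (ρ g).det = 1) {g : G} (hg : (ρ g).trace ≠ 2) :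
    IsUnit (ρ g - 1) := by
  rw [Matrix.isUnit_iff_isUnit_det, isUnit_iff_ne_zero]
  have h := hdet g
  rw [Matrix.det_fin_two] at h
  rw [Matrix.trace_fin_two] at hg
  rw [Matrix.det_fin_two]
  simp only [Matrix.sub_apply, Matrix.one_apply]
  simp only [Fin.isValue, if_true, zero_ne_one, one_ne_zero, if_false, sub_zero]
  intro h2
  apply hg
  linear_combination h - h2

theorem sum_trace {ρ : G →* M2 K} (hdet : ∀ g, (ρ g).det = 1) {h : G} (hh : (ρ h).trace ≠ 2) :
    ∑ g, (ρ g).trace = 0 := by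
  have h1 : ρ h * ∑ g, ρ g = ∑ g, ρ g := by
    rw [Finset.mul_sum]
    refine Fintype.sum_equiv (Equiv.mulLeft h) _ _ fun g => ?_
    rw [Equiv.coe_mulLeft, map_mul]
  have h2 : (ρ h - 1) * ∑ g, ρ g = 0 := by
    rw [sub_mul, one_mul, h1, sub_self]
  have h3 := ((unit_sub hdet hh).mul_right_eq_zero).1 h2
  rw [← Matrix.trace_sum, h3, Matrix.trace_zero]

theorem sum_sq {ρ : G →* M2 K} (hdet : ∀ g, (ρ g).det = 1) {h : G} (hh : (ρ h).trace ≠ 2)
    (hodd : Odd (Fintype.card G)) : ∑ g, (ρ g).trace ^ 2 = 2 * (Fintype.card G : K) := by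
  have h1 : ∑ g, (ρ (g ^ 2)).trace = 0 := by
    rw [← sum_trace hdet hh]
    have hc : (Nat.card G).Coprime 2 := by
      rw [Nat.card_eq_fintype_card]
      exact (Nat.coprime_two_right).2 hodd
    refine Fintype.sum_equiv (powCoprime hc) _ _ fun g => ?_
    rfl
  simp only [trace_sq hdet] at h1
  rw [Finset.sum_sub_distrib, Finset.sum_const, Finset.card_univ, nsmul_eq_mul] at h1
  linear_combination h1

/-- there is a nonscalar matrix commuting with the group -/
theorem exists_comm {ρ : G →* M2 K} (hdet : ∀ g, (ρ g).det = 1) {h : G} (hh : (ρ h).trace ≠ 2)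
    (hodd : Odd (Fintype.card G)) (h2 : (2 : K) ≠ 0) (hcard : (Fintype.card G : K) ≠ 0) :
    ∃ Y : M2 K, (∀ s : K, Y ≠ s • 1) ∧ ∀ g, ρ g * Y = Y * ρ g := by
  by_contra hcon
  push Not at hcon
  have hP : ∀ i j : Fin 2, ∃ s : K, ∑ g, ρ g * Matrix.single i j 1 * ρ g⁻¹ = s • (1 : M2 K) := by
    intro i j
    by_contra h3
    push Not at h3
    obtain ⟨g, hg⟩ := hcon _ h3
    apply hg
    rw [Finset.mul_sum, Finset.sum_mul]
    refine Fintype.sum_equiv (Equiv.mulLeft g) _ _ fun x => ?_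
    rw [Equiv.coe_mulLeft, _root_.mul_inv_rev, map_mul, map_mul]
    have h4 : ρ g⁻¹ * ρ g = 1 := by rw [← map_mul, inv_mul_cancel, map_one]
    calc ρ g * (ρ x * Matrix.single i j 1 * ρ x⁻¹) = ρ g * ρ x * Matrix.single i j 1 * ρ x⁻¹ := by
          noncomm_ring
      _ = ρ g * ρ x * Matrix.single i j 1 * (ρ x⁻¹ * (ρ g⁻¹ * ρ g)) := by rw [h4, mul_one]
      _ = _ := by noncomm_ring
  choose s hs using hP
  have htr : ∀ i j, 2 * s i j = (Fintype.card G : K) * (if i = j then 1 else 0) := by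
    intro i j
    have h3 := congrArg Matrix.trace (hs i j)
    rw [Matrix.trace_smul, Matrix.trace_one, Matrix.trace_sum, Fintype.card_fin, smul_eq_mul] at h3
    have h4 : ∀ g ∈ (Finset.univ : Finset G), (ρ g * Matrix.single i j 1 * ρ g⁻¹).trace =
        if i = j then 1 else 0 := by
      intro g _
      have h5 : ρ g⁻¹ * ρ g = 1 := by rw [← map_mul, inv_mul_cancel, map_one]
      rw [Matrix.trace_mul_comm, ← mul_assoc, h5, one_mul]
      by_cases hij : i = j
      · rw [if_pos hij, hij, Matrix.trace_single_eq_same]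
      · rw [if_neg hij, Matrix.trace_single_eq_of_ne _ _ _ hij]
    rw [Finset.sum_congr rfl h4, Finset.sum_const, Finset.card_univ, nsmul_eq_mul] at h3
    rw [h3]
    push_cast
    ring
  have hent : ∀ i j, ∑ g, ρ g i i * ρ g⁻¹ j j = s i j * (if i = j then 1 else 0) := by
    intro i j
    have h3 := congrFun (congrFun (hs i j) i) j
    rw [Matrix.sum_apply, Matrix.smul_apply, Matrix.one_apply, smul_eq_mul] at h3
    rw [← h3]
    refine Finset.sum_congr rfl fun g _ => ?_
    rw [Matrix.mul_apply, Finset.sum_eq_single j]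
    · rw [Matrix.mul_apply, Finset.sum_eq_single i]
      · simp
      · intro b _ hb
        rw [Matrix.single_apply_of_row_ne (Ne.symm hb), mul_zero]
      · intro h; exact absurd (Finset.mem_univ _) h
    · intro b _ hb
      rw [Matrix.mul_apply, Finset.sum_eq_zero, zero_mul]
      intro c _
      rw [Matrix.single_apply_of_col_ne _ _ (Ne.symm hb), mul_zero]
    · intro h; exact absurd (Finset.mem_univ _) h
  have htot : ∑ g, (ρ g).trace ^ 2 = (Fintype.card G : K) := by
    have h3 : ∀ g, (ρ g).trace ^ 2 = ∑ i, ∑ j, ρ g i i * ρ g⁻¹ j j := by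
      intro g
      rw [pow_two]
      conv_lhs => rw [← trace_inv hdet g]
      rw [trace_inv hdet g]
      conv_lhs =>
        enter [2]
        rw [← trace_inv hdet g]
      rw [Matrix.trace, Matrix.trace, Finset.sum_mul_sum]
      rfl
    rw [Finset.sum_congr rfl fun g _ => h3 g]
    have h4 : ∑ g, ∑ i, ∑ j, ρ g i i * ρ g⁻¹ j j = ∑ i, ∑ j, ∑ g, ρ g i i * ρ g⁻¹ j j := by
      rw [Finset.sum_comm]
      refine Finset.sum_congr rfl fun i _ => ?_
      rw [Finset.sum_comm]
    rw [h4]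
    simp only [hent, Fin.sum_univ_two]
    have h5 := htr 0 0
    have h6 := htr 1 1
    simp only [if_true] at h5 h6
    simp only [if_true, Fin.isValue, zero_ne_one, one_ne_zero, if_false]
    apply mul_left_cancel₀ h2
    linear_combination h5 + h6
  have h3 := sum_sq hdet hh hodd
  rw [htot] at h3
  apply hcard
  linear_combination -h3

/-- matrices commuting with a nonscalar matrix -/
theorem span_of_comm {Y M : M2 K} (hY : ∀ s : K, Y ≠ s • 1) (h : M * Y = Y * M) :
    ∃ a b : K, M = a • 1 + b • Y := by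
  have h00 := congrFun (congrFun h 0) 0
  have h01 := congrFun (congrFun h 0) 1
  have h10 := congrFun (congrFun h 1) 0
  rw [Matrix.mul_apply, Matrix.mul_apply, Fin.sum_univ_two, Fin.sum_univ_two] at h00 h01 h10
  by_cases c1 : Y 0 1 = 0
  · by_cases c2 : Y 1 0 = 0
    · have c3 : Y 0 0 - Y 1 1 ≠ 0 := by
        intro c3
        apply hY (Y 0 0)
        ext i j
        fin_cases i <;> fin_cases j <;> simp [c1, c2]
        linear_combination -c3
      have h1 : M 0 1 = 0 := by
        have h2 : M 0 1 * (Y 0 0 - Y 1 1) = 0 := by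
          rw [c1] at h01
          linear_combination -h01
        exact (mul_eq_zero.1 h2).resolve_right c3
      have h2 : M 1 0 = 0 := by
        have h3 : M 1 0 * (Y 0 0 - Y 1 1) = 0 := by
          rw [c2] at h10
          linear_combination h10
        exact (mul_eq_zero.1 h3).resolve_right c3
      refine ⟨M 0 0 - (M 0 0 - M 1 1) / (Y 0 0 - Y 1 1) * Y 0 0,
        (M 0 0 - M 1 1) / (Y 0 0 - Y 1 1), ?_⟩
      ext i j
      fin_cases i <;> fin_cases j <;> simp [c1, c2, h1, h2]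
      field_simp
      ring
    · refine ⟨M 0 0 - M 1 0 / Y 1 0 * Y 0 0, M 1 0 / Y 1 0, ?_⟩
      ext i j
      fin_cases i <;> fin_cases j
      · simp
      · have h1 : M 0 1 = 0 := by
          have h2 : M 0 1 * Y 1 0 = 0 := by
            rw [c1] at h00
            linear_combination h00
          exact (mul_eq_zero.1 h2).resolve_right c2
        simp [c1, h1]
      · simp [c2]
      · simp only [Fin.mk_one, Fin.isValue, Matrix.add_apply, Matrix.smul_apply, Matrix.one_apply,
          if_true, smul_eq_mul, mul_one]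
        field_simp
        linear_combination h10
  · refine ⟨M 0 0 - M 0 1 / Y 0 1 * Y 0 0, M 0 1 / Y 0 1, ?_⟩
    ext i j
    fin_cases i <;> fin_cases j <;> simp <;> field_simp
    · linear_combination -h00
    · linear_combination -h01

theorem cyclic {ρ : G →* M2 K} (hdet : ∀ g, (ρ g).det = 1) (hfree : ∀ g, g ≠ 1 → (ρ g).trace ≠ 2)
    (hodd : Odd (Fintype.card G)) (h2 : (2 : K) ≠ 0) (hcard : (Fintype.card G : K) ≠ 0) :
    IsCyclic G := by
  by_cases htriv : ∀ g : G, g = 1
  · have : Subsingleton G := ⟨fun a b => by rw [htriv a, htriv b]⟩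
    infer_instance
  push Not at htriv
  obtain ⟨h, hh⟩ := htriv
  obtain ⟨Y, hY, hYc⟩ := exists_comm hdet (hfree h hh) hodd h2 hcard
  obtain ⟨L, _, _, _⟩ : ∃ (L : Type _) (_ : Field L) (_ : Algebra K L), IsAlgClosed L :=
    ⟨AlgebraicClosure K, inferInstance, inferInstance, inferInstance⟩
  obtain ⟨μ, hμ⟩ := Module.End.exists_eigenvalue
    (Matrix.toLin' (Y.map (algebraMap K L)))
  obtain ⟨v, hv⟩ := hμ.exists_hasEigenvector
  have hv0 : v ≠ 0 := hv.2
  have hv1 : (Y.map (algebraMap K L)) *ᵥ v = μ • v := by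
    have := hv.apply_eq_smul
    rwa [Matrix.toLin'_apply] at this
  have hex : ∀ g, ∃ c : L, ((ρ g).map (algebraMap K L)) *ᵥ v = c • v := by
    intro g
    obtain ⟨a, b, hab⟩ := span_of_comm hY (hYc g)
    refine ⟨algebraMap K L a + algebraMap K L b * μ, ?_⟩
    have h3 : (ρ g).map (algebraMap K L) =
        algebraMap K L a • (1 : M2 L) + algebraMap K L b • Y.map (algebraMap K L) := by
      rw [hab]
      ext i j
      simp only [Matrix.map_apply, Matrix.add_apply, Matrix.smul_apply, smul_eq_mul, map_add,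
        map_mul, Matrix.one_apply]
      split_ifs <;> simp
    rw [h3, Matrix.add_mulVec, Matrix.smul_mulVec, Matrix.smul_mulVec, Matrix.one_mulVec, hv1,
      smul_smul, add_smul]
  choose f hf using hex
  have huniq : ∀ {c c' : L}, c • v = c' • v → c = c' := fun h => smul_left_injective _ hv0 h
  have hmul : ∀ g g', f (g * g') = f g * f g' := by
    intro g g'
    apply huniq
    rw [← hf, map_mul, Matrix.map_mul, ← Matrix.mulVec_mulVec, hf, Matrix.mulVec_smul, hf,
      smul_smul, mul_comm]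
  have hone : f 1 = 1 := by
    apply huniq
    rw [← hf, map_one, Matrix.map_one _ (map_zero _) (map_one _), Matrix.one_mulVec, one_smul]
  have hker : ∀ g, f g = 1 → g = 1 := by
    intro g hg
    by_contra hne
    have h3 := unit_sub hdet (hfree g hne)
    have h4 : IsUnit ((ρ g - 1).map (algebraMap K L)) := h3.map (algebraMap K L).mapMatrix
    have h5 : ((ρ g - 1).map (algebraMap K L)) *ᵥ v = 0 := by
      have h6 : (ρ g - 1).map (algebraMap K L) = (ρ g).map (algebraMap K L) - 1 := by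
        rw [Matrix.map_sub _ (map_sub _), Matrix.map_one _ (map_zero _) (map_one _)]
      rw [h6, Matrix.sub_mulVec, hf, hg, one_smul, Matrix.one_mulVec, sub_self]
    obtain ⟨W, hW⟩ := h4.exists_left_inv
    apply hv0
    calc v = (W * (ρ g - 1).map (algebraMap K L)) *ᵥ v := by rw [hW, Matrix.one_mulVec]
      _ = 0 := by rw [← Matrix.mulVec_mulVec, h5, Matrix.mulVec_zero]
  let F : G →* L := ⟨⟨f, hone⟩, hmul⟩
  refine isCyclic_of_injective_ringHom F ?_
  intro g g' hgg
  have h3 : f (g * g'⁻¹) = 1 := by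
    have h4 : f g = f g' := hgg
    rw [hmul, h4, ← hmul, mul_inv_cancel, hone]
  exact mul_inv_eq_one.1 (hker _ h3)

omit [Fintype G] in
theorem pow_dvd {p : ℕ} [Fact p.Prime] {ρ : G →* M2 (ZMod p)} (hdet : ∀ g, (ρ g).det = 1)
    (hfree : ∀ g, g ≠ 1 → (ρ g).trace ≠ 2) (g : G) : g ^ (p + 1) = 1 ∨ g ^ (p - 1) = 1 := by
  have hp : 1 ≤ p := (Fact.out : p.Prime).one_lt.le
  by_cases h1 : g ^ (p + 1) = 1
  · exact Or.inl h1
  right
  have hu := unit_sub hdet (hfree _ h1)
  have hxy : ρ g * ρ g⁻¹ = 1 := by rw [← map_mul, mul_inv_cancel, map_one]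
  have hyx : ρ g⁻¹ * ρ g = 1 := by rw [← map_mul, inv_mul_cancel, map_one]
  have hc : Commute (ρ g) (ρ g⁻¹) := by
    rw [commute_iff_eq, hxy, hyx]
  have hsum : ρ g + ρ g⁻¹ = (ρ g).trace • (1 : M2 (ZMod p)) := by
    rw [inv_eq hdet, Matrix.trace_fin_two]
    ext i j
    fin_cases i <;> fin_cases j <;> simp [add_comm]
  have h2 : ρ g ^ p + ρ g⁻¹ ^ p = ρ g + ρ g⁻¹ := by
    rw [← add_pow_char_of_commute p hc, hsum, smul_pow, one_pow, ZMod.pow_card]
  have h3 : (ρ (g ^ (p + 1)) - 1) * (ρ (g ^ (p - 1)) - 1) = 0 := by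
    have h4 : ρ (g ^ (p + 1)) * ρ (g ^ (p - 1)) = ρ g ^ p * ρ g ^ p := by
      rw [← map_mul, ← pow_add, ← map_pow, ← map_mul, ← pow_add]
      congr 2
      omega
    have h5 : ρ (g ^ (p + 1)) = ρ g ^ p * ρ g := by rw [map_pow, pow_succ]
    have h6 : ρ (g ^ (p - 1)) = ρ g ^ p * ρ g⁻¹ := by
      rw [← map_pow, ← map_mul]
      congr 1
      rw [eq_mul_inv_iff_mul_eq, ← pow_succ]
      congr 1
      omega
    have h7 : ρ g ^ p * ρ g⁻¹ ^ p = 1 := by
      rw [← hc.mul_pow, hxy, one_pow]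
    rw [sub_mul, mul_sub, one_mul, mul_one, h4]
    have h8 : ρ g ^ p * (ρ g ^ p + ρ g⁻¹ ^ p) = ρ g ^ p * (ρ g + ρ g⁻¹) := by rw [h2]
    rw [mul_add, mul_add, h7, ← h5, ← h6] at h8
    have h9 : ρ g ^ p * ρ g ^ p = ρ (g ^ (p + 1)) + ρ (g ^ (p - 1)) - 1 := eq_sub_of_add_eq h8
    rw [h9]
    abel
  have h4 := (hu.mul_right_eq_zero).1 h3
  by_contra hne
  apply hfree _ hne
  rw [sub_eq_zero.1 h4, Matrix.trace_one, Fintype.card_fin]
  norm_num

/-- **Main statement** -/
theorem main {p : ℕ} [Fact p.Prime] (hp2 : p ≠ 2) {ρ : G →* M2 (ZMod p)}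
    (hdet : ∀ g, (ρ g).det = 1) (hfree : ∀ g, g ≠ 1 → (ρ g).trace ≠ 2)
    (hodd : Odd (Nat.card G)) (hcard : ¬ p ∣ Nat.card G) :
    IsCyclic G ∧ (Nat.card G ∣ p - 1 ∨ Nat.card G ∣ p + 1) := by
  rw [Nat.card_eq_fintype_card] at hodd hcard
  have h2 : (2 : ZMod p) ≠ 0 := by
    intro h
    have h3 : ((2 : ℕ) : ZMod p) = 0 := by exact_mod_cast h
    rw [ZMod.natCast_eq_zero_iff] at h3
    have := (Nat.prime_dvd_prime_iff_eq (Fact.out : p.Prime) Nat.prime_two).1 h3
    exact hp2 this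
  have hc : (Fintype.card G : ZMod p) ≠ 0 := by
    intro h
    rw [ZMod.natCast_eq_zero_iff] at h
    exact hcard h
  have hcyc := cyclic hdet hfree hodd h2 hc
  refine ⟨hcyc, ?_⟩
  obtain ⟨g, hg⟩ := hcyc.exists_generator
  have h3 : orderOf g = Nat.card G := orderOf_eq_card_of_forall_mem_zpowers hg
  rcases pow_dvd hdet hfree g with h4 | h4
  · right; rw [← h3]; exact orderOf_dvd_of_pow_eq_one h4
  · left; rw [← h3]; exact orderOf_dvd_of_pow_eq_one h4

end Pool.Agent.Run7.h40.SICS.Cyc
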