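import Mathlib

set_option autoImplicit false

/-! # Unipotent elements of finite order in algebras over a ring where `p` is nilpotent -/

namespace Pool.Agent.Run7.h40.SICS

open Finset

section Poly

variable {R : Type*} [CommRing R]

theorem exists_poly_pow (n : ℕ) :
    ∃ q : Polynomial R, (1 + Polynomial.X) ^ n =
      1 + (n : Polynomial R) * Polynomial.X + Polynomial.X * (Polynomial.X * q) := by
  induction n with
  | zero => exact ⟨0, by simp⟩
  | succ n ih =>
    obtain ⟨q, hq⟩ := ih
    refine ⟨(n : Polynomial R) + q + Polynomial.X * q, ?_⟩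
    rw [pow_succ, hq]
    push_cast
    ring

theorem exists_poly_prime {p : ℕ} (hp : p.Prime) :
    ∃ q : Polynomial R, (1 + Polynomial.X) ^ p =
      1 + Polynomial.X ^ p + (p : Polynomial R) * Polynomial.X * (1 + Polynomial.X * q) := by
  have h := add_pow_prime_eq hp (Polynomial.X : Polynomial R) 1
  have h1 : (1 : ℕ) ∈ Ioo 0 p := by
    rw [Finset.mem_Ioo]; exact ⟨one_pos, hp.one_lt⟩
  rw [← Finset.add_sum_erase _ _ h1] at h
  have h2 : ∀ k ∈ (Ioo 0 p).erase 1, (Polynomial.X : Polynomial R) ^ (k - 1) * 1 ^ (p - k - 1) *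
      ((p.choose k / p : ℕ) : Polynomial R) =
      Polynomial.X * (Polynomial.X ^ (k - 2) * ((p.choose k / p : ℕ) : Polynomial R)) := by
    intro k hk
    rw [Finset.mem_erase, Finset.mem_Ioo] at hk
    have : k - 1 = (k - 2) + 1 := by omega
    rw [this, pow_succ]
    ring
  rw [Finset.sum_congr rfl h2, ← Finset.mul_sum] at h
  refine ⟨∑ k ∈ (Ioo 0 p).erase 1,
    (Polynomial.X ^ (k - 2) * ((p.choose k / p : ℕ) : Polynomial R)), ?_⟩
  rw [add_comm 1 Polynomial.X, h]
  have h3 : (p.choose 1 / p : ℕ) = 1 := by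
    rw [Nat.choose_one_right, Nat.div_self hp.pos]
  rw [h3, Nat.cast_one]
  simp only [one_pow, mul_one, Nat.sub_self, pow_zero]
  ring

end Poly

variable {R A : Type*} [CommRing R] [Ring A] [Algebra R A]

/-- a unipotent element of order prime to `p` is trivial -/
theorem unip_coprime {N : A} (hN : IsNilpotent N) {n : ℕ} (hn : IsUnit (n : R))
    (h : (1 + N) ^ n = 1) : N = 0 := by
  obtain ⟨q, hq⟩ := exists_poly_pow (R := R) n
  have h1 := congrArg (Polynomial.aeval N) hq
  simp only [map_pow, map_add, map_one, Polynomial.aeval_X, map_mul, map_natCast] at h1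
  rw [h] at h1
  have h2 : N * ((n : A) + N * Polynomial.aeval N q) = 0 := by
    have h3 : N * ((n : A) + N * Polynomial.aeval N q) =
        (1 + (n : A) * N + N * (N * Polynomial.aeval N q)) - 1 := by
      rw [mul_add, (Nat.cast_commute n N).eq]
      abel
    rw [h3, ← h1, sub_self]
  have hc : Commute N (Polynomial.aeval N q) := by
    have := (Commute.all (Polynomial.X : Polynomial R) q).map (Polynomial.aeval N)
    rwa [Polynomial.aeval_X] at this
  have h4 : IsNilpotent (N * Polynomial.aeval N q) := Commute.isNilpotent_mul_right hc hN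
  have h5 : IsUnit (n : A) := by
    have := hn.map (algebraMap R A)
    rwa [map_natCast] at this
  have h6 : IsUnit ((n : A) + N * Polynomial.aeval N q) := by
    exact (h4.isUnit_add_left_of_commute h5 (Nat.cast_commute n _).symm)
  exact (h6.mul_left_eq_zero).1 h2

/-- an element of order `p` is unipotent -/
theorem unip_prime {p : ℕ} (hp : p.Prime) (hpn : IsNilpotent (p : R)) {N : A}
    (h : (1 + N) ^ p = 1) : IsNilpotent N := by
  obtain ⟨q, hq⟩ := exists_poly_prime (R := R) hp
  have h1 := congrArg (Polynomial.aeval N) hq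
  simp only [map_pow, map_add, map_one, Polynomial.aeval_X, map_mul, map_natCast] at h1
  rw [h] at h1
  have h2 : N ^ p = (p : A) * (-(N * (1 + N * Polynomial.aeval N q))) := by
    have h3 : N ^ p = (1 + N ^ p + (p : A) * N * (1 + N * Polynomial.aeval N q)) - 1 -
        (p : A) * N * (1 + N * Polynomial.aeval N q) := by abel
    rw [h3, ← h1]
    noncomm_ring
  have h4 : IsNilpotent (p : A) := by
    have := hpn.map (algebraMap R A)
    rwa [map_natCast] at this
  have h5 : IsNilpotent (N ^ p) := by
    rw [h2]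
    exact Commute.isNilpotent_mul_right (Nat.cast_commute p _) h4
  obtain ⟨m, hm⟩ := h5
  exact ⟨p * m, by rw [pow_mul, hm]⟩

/-- an element `1 + N` of order `p` with `N ^ 2` a multiple of `p (1 + N)` satisfies `p N = 0` -/
theorem kill {p : ℕ} (hp : p.Prime) (h5 : 5 ≤ p) (hpn : IsNilpotent (p : R)) {N : A} {s : R}
    (h2 : N * N = algebraMap R A (p * s) * (1 + N)) (h : (1 + N) ^ p = 1) : (p : A) * N = 0 := by
  have hN : IsNilpotent N := unip_prime hp hpn h
  obtain ⟨q, hq⟩ := exists_poly_prime (R := R) hp
  obtain ⟨φ, hφ⟩ : ∃ φ : Polynomial R →ₐ[R] A, φ = Polynomial.aeval N := ⟨_, rfl⟩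
  have hφX : φ Polynomial.X = N := by rw [hφ, Polynomial.aeval_X]
  have hφC : ∀ r : R, φ (Polynomial.C r) = algebraMap R A r := by
    intro r; rw [hφ, Polynomial.aeval_C]
  have hXX : φ (Polynomial.X * Polynomial.X) =
      φ (Polynomial.C ((p : R) * s) * (1 + Polynomial.X)) := by
    rw [map_mul, map_mul, hφX, hφC, map_add, map_one, hφX, h2]
  obtain ⟨W, hW⟩ : ∃ W : Polynomial R, W = Polynomial.C s * Polynomial.C s *
    (1 + Polynomial.X) * (1 + Polynomial.X) * Polynomial.X ^ (p - 5) := ⟨_, rfl⟩
  have e1 : φ (Polynomial.X ^ p) = φ (Polynomial.C (p : R) * Polynomial.X *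
      (Polynomial.C (p : R) * W)) := by
    have a1 : (Polynomial.X : Polynomial R) ^ p =
        Polynomial.X * (Polynomial.X * Polynomial.X) * (Polynomial.X * Polynomial.X) *
          Polynomial.X ^ (p - 5) := by
      have : p = 5 + (p - 5) := by omega
      conv_lhs => rw [this]
      ring
    rw [a1, map_mul, map_mul, map_mul, hXX, ← map_mul, ← map_mul, ← map_mul, hW]
    congr 1
    rw [Polynomial.C_mul]
    ring
  have e2 : φ (Polynomial.C (p : R) * Polynomial.X) *
      φ (1 + (Polynomial.X * q + Polynomial.C (p : R) * W)) = 0 := by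
    have h1 := congrArg φ hq
    rw [map_pow, map_add, map_one, hφX, h, map_add, map_add, e1, ← map_add φ 1, ← map_add] at h1
    have h3 : φ (Polynomial.C (p : R) * Polynomial.X *
        (1 + (Polynomial.X * q + Polynomial.C (p : R) * W))) + 1 = 1 := by
      conv_rhs => rw [h1]
      rw [← map_one φ, ← map_add]
      congr 1
      rw [map_natCast]
      ring
    rw [← map_mul]
    exact add_eq_right.1 h3
  have h4 : IsNilpotent (p : A) := by
    have := hpn.map (algebraMap R A)
    rwa [map_natCast] at this
  have n1 : IsNilpotent (φ (Polynomial.X * q)) := by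
    rw [map_mul]
    exact Commute.isNilpotent_mul_right ((Commute.all _ _).map φ) (by rw [hφX]; exact hN)
  have n2 : IsNilpotent (φ (Polynomial.C (p : R) * W)) := by
    rw [map_mul]
    exact Commute.isNilpotent_mul_right ((Commute.all _ _).map φ)
      (by rw [hφC, map_natCast]; exact h4)
  have n3 : IsNilpotent (φ (Polynomial.X * q + Polynomial.C (p : R) * W)) := by
    rw [map_add]
    exact Commute.isNilpotent_add ((Commute.all _ _).map φ) n1 n2
  have n4 : IsUnit (φ (1 + (Polynomial.X * q + Polynomial.C (p : R) * W))) := by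
    rw [map_add, map_one]
    exact n3.isUnit_one_add
  have n5 := (n4.mul_left_eq_zero).1 e2
  rw [map_mul, hφX, hφC, map_natCast] at n5
  exact n5

end Pool.Agent.Run7.h40.SICS
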