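import Mathlib
import Pool.Agent.Run7.h40.SICS.Ring

set_option autoImplicit false

/-! # Two by two matrices of determinant one over `ZMod (p ^ k)` -/

namespace Pool.Agent.Run7.h40.SICS

open Finset Matrix

theorem sq_eq {R : Type*} [CommRing R] {F : Matrix (Fin 2) (Fin 2) R} (h : F.det = 1) :
    (F - 1) * (F - 1) = algebraMap R (Matrix (Fin 2) (Fin 2) R) (F.trace - 2) * (1 + (F - 1)) := by
  rw [Matrix.det_fin_two] at h
  ext i j
  fin_cases i <;> fin_cases j <;>
    simp [Matrix.mul_apply, Fin.sum_univ_two, Matrix.trace_fin_two, Matrix.algebraMap_matrix_apply,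
      Matrix.one_apply] <;> first | (ring1; done) | linear_combination -h

theorem det_sub_one {R : Type*} [CommRing R] {F : Matrix (Fin 2) (Fin 2) R} (h : F.det = 1) :
    (F - 1).det = -(F.trace - 2) := by
  rw [Matrix.det_fin_two] at h
  rw [Matrix.det_fin_two, Matrix.trace_fin_two]
  simp only [Matrix.sub_apply, Matrix.one_apply]
  simp
  linear_combination h

section PP

variable {p k d : ℕ} [NeZero d]

omit [NeZero d] in
theorem nilp (hd : d = p ^ k) : IsNilpotent (p : ZMod d) := by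
  refine ⟨k, ?_⟩
  rw [← Nat.cast_pow, ← hd, ZMod.natCast_self]

theorem unit_or (hp : p.Prime) (hk : 1 ≤ k) (hd : d = p ^ k) {x : ZMod d} (hx : ¬ IsUnit x) :
    ∃ s : ZMod d, x = p * s := by
  have h1 : (x.val : ZMod d) = x := ZMod.natCast_zmod_val x
  obtain ⟨n, hn⟩ : ∃ n, n = x.val := ⟨_, rfl⟩
  rw [← h1, ZMod.isUnit_iff_coprime, ← hn, hd, Nat.coprime_pow_right_iff hk, Nat.coprime_comm,
    hp.coprime_iff_not_dvd, not_not] at hx
  rw [← hn] at h1
  obtain ⟨m, hm⟩ := hx
  exact ⟨m, by rw [← h1, hm]; push_cast; ring⟩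

omit [NeZero d] in
theorem isUnit_natCast (hp : p.Prime) (hk : 1 ≤ k) (hd : d = p ^ k) {n : ℕ} (hn : ¬ p ∣ n) :
    IsUnit (n : ZMod d) := by
  rw [ZMod.isUnit_iff_coprime, hd, Nat.coprime_pow_right_iff hk, Nat.coprime_comm,
    hp.coprime_iff_not_dvd]
  exact hn

theorem nilp_of_not_unit (hp : p.Prime) (hk : 1 ≤ k) (hd : d = p ^ k) {x : ZMod d}
    (hx : ¬ IsUnit x) : IsNilpotent x := by
  obtain ⟨s, rfl⟩ := unit_or hp hk hd hx
  exact Commute.isNilpotent_mul_right (Commute.all _ _) (nilp hd)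

theorem sub_nilp (hp : p.Prime) (hk : 1 ≤ k) (hd : d = p ^ k)
    {F : Matrix (Fin 2) (Fin 2) (ZMod d)} (h : F.det = 1) (ht : ¬ IsUnit (F.trace - 2)) :
    IsNilpotent (F - 1) := by
  have h1 : IsNilpotent ((F - 1) * (F - 1)) := by
    rw [sq_eq h]
    exact Commute.isNilpotent_mul_right (Algebra.commutes _ _)
      ((nilp_of_not_unit hp hk hd ht).map _)
  obtain ⟨m, hm⟩ := h1
  refine ⟨2 * m, ?_⟩
  rw [pow_mul, pow_two, hm]

/-- an element of order prime to `p` and trace `2` modulo `p` is trivial -/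
theorem eq_one_of_coprime (hp : p.Prime) (hk : 1 ≤ k) (hd : d = p ^ k)
    {F : Matrix (Fin 2) (Fin 2) (ZMod d)} (h : F.det = 1) (ht : ¬ IsUnit (F.trace - 2))
    {n : ℕ} (hn : ¬ p ∣ n) (hF : F ^ n = 1) : F = 1 := by
  have h1 := unip_coprime (R := ZMod d) (sub_nilp hp hk hd h ht) (isUnit_natCast hp hk hd hn)
    (by rw [add_sub_cancel]; exact hF)
  exact sub_eq_zero.1 h1

theorem not_unit_of_pow (hp : p.Prime) (hk : 1 ≤ k) (hd : d = p ^ k)
    {F : Matrix (Fin 2) (Fin 2) (ZMod d)} (h : F.det = 1) (hF : F ^ p = 1) :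
    IsNilpotent (F - 1) ∧ ¬ IsUnit (F.trace - 2) := by
  have h1 : IsNilpotent (F - 1) := unip_prime (R := ZMod d) hp (nilp hd)
    (by rw [add_sub_cancel]; exact hF)
  refine ⟨h1, fun ht => ?_⟩
  have : Nontrivial (ZMod d) := by
    have : Fact (1 < d) := ⟨by rw [hd]; exact Nat.one_lt_pow (by omega) hp.one_lt⟩
    infer_instance
  have h2 : IsUnit ((F - 1).det) := by rw [det_sub_one h]; exact ht.neg
  have h3 : IsUnit (F - 1) := (Matrix.isUnit_iff_isUnit_det _).2 h2
  exact h1.not_isUnit h3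

/-- an element of order `p` is trivial modulo the `p`-torsion -/
theorem mul_sub_one (hp : p.Prime) (h5 : 5 ≤ p) (hk : 1 ≤ k) (hd : d = p ^ k)
    {F : Matrix (Fin 2) (Fin 2) (ZMod d)} (h : F.det = 1) (hF : F ^ p = 1) :
    (p : Matrix (Fin 2) (Fin 2) (ZMod d)) * (F - 1) = 0 := by
  obtain ⟨s, hs⟩ := unit_or hp hk hd (not_unit_of_pow hp hk hd h hF).2
  refine kill (R := ZMod d) hp h5 (nilp hd) (s := s) ?_ (by rw [add_sub_cancel]; exact hF)
  rw [sq_eq h, hs]

/-- number of fixed vectors of an element of order `p`, for `2 ≤ k` -/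
theorem card_fix_two (hp : p.Prime) (h5 : 5 ≤ p) (hk : 2 ≤ k) (hd : d = p ^ k)
    {F : Matrix (Fin 2) (Fin 2) (ZMod d)} (h : F.det = 1) (hF : F ^ p = 1) :
    p ^ (k - 1) * p ^ (k - 1) ≤ (univ.filter fun v : Fin 2 → ZMod d => F.mulVec v = v).card := by
  -- all multiples of `p` are fixed
  have h1 := mul_sub_one hp h5 (by omega) hd h hF
  have h2 : ∀ w : Fin 2 → ZMod d, F.mulVec ((p : ZMod d) • w) = (p : ZMod d) • w := by
    intro w
    have h3 : (F - 1).mulVec ((p : ZMod d) • w) = 0 := by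
      have h4 := congrArg (fun M => Matrix.mulVec M w) h1
      simp only [Matrix.zero_mulVec] at h4
      rw [Matrix.mulVec_smul, ← h4, ← Matrix.smul_mulVec]
      congr 1
      ext i j
      rw [← nsmul_eq_mul, Matrix.smul_apply, Matrix.smul_apply, smul_eq_mul, nsmul_eq_mul]
    rw [Matrix.sub_mulVec, Matrix.one_mulVec] at h3
    exact sub_eq_zero.1 h3
  have h3 : p ^ (k - 1) * p ^ (k - 1) ≤
      (univ : Finset (Fin (p ^ (k - 1)) × Fin (p ^ (k - 1)))).card := by
    rw [Finset.card_univ, Fintype.card_prod, Fintype.card_fin]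
  refine h3.trans ?_
  apply Finset.card_le_card_of_injOn
    (fun x => (p : ZMod d) • ![((x.1 : ℕ) : ZMod d), ((x.2 : ℕ) : ZMod d)])
  · intro x _
    simp only [Finset.coe_filter, Finset.mem_univ, true_and, Set.mem_ofPred_eq]
    exact h2 _
  · intro x _ y _ hxy
    have h4 : ∀ a b : Fin (p ^ (k - 1)), (p : ZMod d) * ((a : ℕ) : ZMod d) =
        (p : ZMod d) * ((b : ℕ) : ZMod d) → a = b := by
      intro a b hab
      rw [← Nat.cast_mul, ← Nat.cast_mul, ZMod.natCast_eq_natCast_iff, Nat.ModEq] at hab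
      have hlt : ∀ c : Fin (p ^ (k - 1)), p * (c : ℕ) < d := by
        intro c
        have : d = p * p ^ (k - 1) := by
          rw [hd, ← pow_succ']; congr 1; omega
        rw [this]
        exact Nat.mul_lt_mul_of_pos_left c.2 hp.pos
      rw [Nat.mod_eq_of_lt (hlt a), Nat.mod_eq_of_lt (hlt b)] at hab
      exact Fin.ext (Nat.eq_of_mul_eq_mul_left hp.pos hab)
    have h5 := congrFun hxy 0
    have h6 := congrFun hxy 1
    simp only [Pi.smul_apply, smul_eq_mul, Matrix.cons_val_zero, Matrix.cons_val_one] at h5 h6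
    exact Prod.ext (h4 _ _ h5) (h4 _ _ h6)

/-- number of fixed vectors of an element of order `p`, for `k = 1` -/
theorem card_fix_one (hp : d.Prime)
    {F : Matrix (Fin 2) (Fin 2) (ZMod d)} (h : F.det = 1) (hF : F ^ d = 1) :
    d ≤ (univ.filter fun v : Fin 2 → ZMod d => F.mulVec v = v).card := by
  have : Fact d.Prime := ⟨hp⟩
  have h1 : ¬ IsUnit (F.trace - 2) := (not_unit_of_pow (d := d) hp le_rfl (pow_one d).symm h hF).2
  have h2 : (F - 1).det = 0 := by
    rw [det_sub_one h]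
    rw [isUnit_iff_ne_zero, not_not] at h1
    rw [h1, neg_zero]
  obtain ⟨v, hv, hv2⟩ := Matrix.exists_mulVec_eq_zero_iff.2 h2
  have h3 : d ≤ (univ : Finset (ZMod d)).card := by
    rw [Finset.card_univ, ZMod.card]
  refine h3.trans ?_
  apply Finset.card_le_card_of_injOn (fun x => x • v)
  · intro x _
    simp only [Finset.coe_filter, Finset.mem_univ, true_and, Set.mem_ofPred_eq]
    rw [Matrix.sub_mulVec, Matrix.one_mulVec] at hv2
    rw [Matrix.mulVec_smul, sub_eq_zero.1 hv2]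
  · intro x _ y _ hxy
    exact smul_left_injective _ hv hxy

end PP

/-! ## Reduction to a factor of the modulus -/

section Red

variable {m D d : ℕ} [NeZero d] [NeZero D]

/-- reduction modulo a factor -/
def red (hd : d = m * D) : ZMod d →+* ZMod D :=
  ZMod.castHom (show D ∣ d from ⟨m, by rw [hd, mul_comm]⟩) (ZMod D)

theorem mul_eq_zero_of_red (hd : d = m * D) {z : ZMod d} (hz : red hd z = 0) :
    (m : ZMod d) * z = 0 := by
  have h1 : (z.val : ZMod d) = z := ZMod.natCast_zmod_val z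
  rw [← h1, map_natCast, ZMod.natCast_eq_zero_iff] at hz
  rw [← h1, ← Nat.cast_mul, ZMod.natCast_eq_zero_iff]
  conv_lhs => rw [hd]
  exact Nat.mul_dvd_mul_left m hz

theorem red_mulVec (hd : d = m * D) (F : Matrix (Fin 2) (Fin 2) (ZMod d)) (v : Fin 2 → ZMod d)
    (i : Fin 2) : red hd ((F *ᵥ v) i) = ((F.map (red hd)) *ᵥ (fun j => red hd (v j))) i := by
  simp only [Matrix.mulVec, dotProduct, map_sum, map_mul, Matrix.map_apply]

theorem card_fix_le (hd : d = m * D) (F : Matrix (Fin 2) (Fin 2) (ZMod d)) :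
    (univ.filter fun v : Fin 2 → ZMod D => (F.map (red hd)) *ᵥ v = v).card ≤
      (univ.filter fun v : Fin 2 → ZMod d => F *ᵥ v = v).card := by
  have hm : 0 < m := by
    rcases Nat.eq_zero_or_pos m with h | h
    · rw [h, zero_mul] at hd
      exact absurd hd (NeZero.ne d)
    · exact h
  apply Finset.card_le_card_of_injOn (fun x => (m : ZMod d) • fun i => ((x i).val : ZMod d))
  · intro x hx
    simp only [Finset.coe_filter, Finset.mem_univ, true_and, Set.mem_ofPred_eq] at hx ⊢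
    rw [Matrix.mulVec_smul]
    funext i
    rw [Pi.smul_apply, Pi.smul_apply, smul_eq_mul, smul_eq_mul, ← sub_eq_zero, ← mul_sub]
    apply mul_eq_zero_of_red hd
    rw [map_sub, red_mulVec, map_natCast, ZMod.natCast_zmod_val]
    have h1 : (fun j => red hd (((x j).val : ℕ) : ZMod d)) = x := by
      funext j
      rw [map_natCast, ZMod.natCast_zmod_val]
    rw [h1, hx, sub_self]
  · intro x _ y _ hxy
    funext i
    have h1 := congrFun hxy i
    simp only [Pi.smul_apply, smul_eq_mul] at h1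
    rw [← Nat.cast_mul, ← Nat.cast_mul, ZMod.natCast_eq_natCast_iff, Nat.ModEq] at h1
    have hlt : ∀ c : ZMod D, m * c.val < d := by
      intro c
      rw [hd]
      exact Nat.mul_lt_mul_of_pos_left (ZMod.val_lt c) hm
    rw [Nat.mod_eq_of_lt (hlt _), Nat.mod_eq_of_lt (hlt _)] at h1
    exact ZMod.val_injective D (Nat.eq_of_mul_eq_mul_left hm h1)

end Red

end Pool.Agent.Run7.h40.SICS
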