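import Mathlib
import Pool.Agent.R503.SIC.Cliff

set_option autoImplicit false

/-! # The action of Clifford unitaries on displacements -/

namespace Pool.Agent.Run7.h40.SICS

open Finset Matrix
open R503.SIC (Dm Nrm e)
open scoped ComplexConjugate

variable {d : ℕ} [NeZero d]

/-- displacement operators indexed by vectors -/
noncomputable def DD (v : Fin 2 → ZMod d) : Matrix (ZMod d) (ZMod d) ℂ := Dm (v 0) (v 1)

theorem DD_mul (v w : Fin 2 → ZMod d) : DD v * DD w = e (v 1 * w 0) • DD (v + w) := by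
  unfold DD
  rw [R503.SIC.Dm_mul]
  rfl

theorem DD_zero : DD (0 : Fin 2 → ZMod d) = 1 := R503.SIC.Dm_zero

theorem DD_inj {v w : Fin 2 → ZMod d} {c : ℂ} (h : DD v = c • DD w) : v = w := by
  obtain ⟨h1, h2⟩ := R503.SIC.Dm_inj h
  ext i
  fin_cases i
  · exact h1
  · exact h2

/-- `F` describes the action of `U` on displacement operators -/
def Rep (U : Matrix (ZMod d) (ZMod d) ℂ) (F : Matrix (Fin 2) (Fin 2) (ZMod d)) : Prop :=
  ∀ v : Fin 2 → ZMod d, ∃ c : ℂ, U * DD v = c • (DD (F *ᵥ v) * U)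

theorem c_ne {U : Matrix (ZMod d) (ZMod d) ℂ} (hU : IsUnit U) {v w : Fin 2 → ZMod d} {c : ℂ}
    (h : U * DD v = c • (DD w * U)) : c ≠ 0 := R503.SIC.c_ne hU h

theorem img_unique {U : Matrix (ZMod d) (ZMod d) ℂ} (hU : IsUnit U) {v w w' : Fin 2 → ZMod d}
    {c c' : ℂ} (h : U * DD v = c • (DD w * U)) (h' : U * DD v = c' • (DD w' * U)) : w = w' := by
  have hc := c_ne hU h
  have h1 : DD w * U = (c⁻¹ * c') • DD w' * U := by
    rw [Matrix.smul_mul, mul_smul, ← h', h, smul_smul, inv_mul_cancel₀ hc, one_smul]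
  exact DD_inj (hU.mul_right_cancel h1)

theorem exists_rep {U : Matrix (ZMod d) (ZMod d) ℂ} (hU : IsUnit U) (hn : Nrm U) :
    ∃ F, Rep U F := by
  have h1 : ∀ v : Fin 2 → ZMod d, ∃ w : Fin 2 → ZMod d, ∃ c : ℂ, U * DD v = c • (DD w * U) := by
    intro v
    obtain ⟨a, b, c, h⟩ := hn (v 0) (v 1)
    exact ⟨![a, b], c, h⟩
  choose f c hf using h1
  have hadd : ∀ v w, f (v + w) = f v + f w := by
    intro v w
    have h2 : U * DD (v + w) = ((e (v 1 * w 0))⁻¹ * (c v * c w * e (f v 1 * f w 0))) •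
        (DD (f v + f w) * U) := by
      have h3 : DD (v + w) = (e (v 1 * w 0))⁻¹ • (DD v * DD w) := by
        rw [DD_mul, smul_smul, inv_mul_cancel₀ (R503.SIC.e_ne_zero _), one_smul]
      rw [h3, Matrix.mul_smul, ← mul_assoc, hf v, Matrix.smul_mul, mul_assoc, hf w,
        Matrix.mul_smul, ← mul_assoc, DD_mul, Matrix.smul_mul, smul_smul, smul_smul, smul_smul]
      congr 1
      ring
    exact img_unique hU (hf (v + w)) h2
  let φ : (Fin 2 → ZMod d) →+ (Fin 2 → ZMod d) := AddMonoidHom.mk' f hadd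
  refine ⟨LinearMap.toMatrix' (AddMonoidHom.toZModLinearMap d φ), fun v => ⟨c v, ?_⟩⟩
  rw [← Matrix.toLin'_apply, Matrix.toLin'_toMatrix']
  exact hf v

theorem Rep.unique {U : Matrix (ZMod d) (ZMod d) ℂ} (hU : IsUnit U)
    {F F' : Matrix (Fin 2) (Fin 2) (ZMod d)} (h : Rep U F) (h' : Rep U F') : F = F' := by
  apply Matrix.ext_of_mulVec_single
  intro i
  obtain ⟨c, hc⟩ := h (Pi.single i 1)
  obtain ⟨c', hc'⟩ := h' (Pi.single i 1)
  exact img_unique hU hc hc'

theorem Rep.mul {U V : Matrix (ZMod d) (ZMod d) ℂ}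
    {F G : Matrix (Fin 2) (Fin 2) (ZMod d)} (h : Rep U F) (h' : Rep V G) :
    Rep (U * V) (F * G) := by
  intro v
  obtain ⟨c, hc⟩ := h' v
  obtain ⟨c', hc'⟩ := h (G *ᵥ v)
  refine ⟨c * c', ?_⟩
  rw [mul_assoc, hc, Matrix.mul_smul, ← mul_assoc, hc', Matrix.smul_mul, smul_smul, mul_assoc,
    Matrix.mulVec_mulVec]

theorem Rep.one : Rep (1 : Matrix (ZMod d) (ZMod d) ℂ) 1 := by
  intro v
  exact ⟨1, by rw [one_mul, mul_one, one_smul, Matrix.one_mulVec]⟩

theorem Rep.det {U : Matrix (ZMod d) (ZMod d) ℂ} (hU : IsUnit U)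
    {F : Matrix (Fin 2) (Fin 2) (ZMod d)} (h : Rep U F) : F.det = 1 := by
  obtain ⟨c, hc⟩ := h ![1, 0]
  obtain ⟨c', hc'⟩ := h ![0, 1]
  have h1 := R503.SIC.sympl hU hc' hc
  simp only [Matrix.mulVec, dotProduct, Fin.sum_univ_two, Matrix.cons_val_zero,
    Matrix.cons_val_one] at h1
  rw [Matrix.det_fin_two]
  linear_combination -h1

/-- a matrix commuting with all displacement operators is a scalar -/
theorem scalar_of_comm {M : Matrix (ZMod d) (ZMod d) ℂ}
    (h : ∀ v : Fin 2 → ZMod d, M * DD v = DD v * M) : ∃ s : ℂ, M = s • 1 := by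
  -- commuting with `Z`: diagonal
  have hZ : M * Dm 0 1 = Dm 0 1 * M := h ![0, 1]
  have hX : M * Dm 1 0 = Dm 1 0 * M := h ![1, 0]
  have h1 : ∀ i j, M i j * e j = e i * M i j := by
    intro i j
    have h3 := congrFun (congrFun hZ i) j
    rw [Matrix.mul_apply, Matrix.mul_apply, Finset.sum_eq_single j, Finset.sum_eq_single i] at h3
    · simpa [Dm] using h3
    · intro l _ hl
      simp only [Dm, Matrix.of_apply]
      rw [if_neg (by rw [add_zero]; exact fun h => hl h.symm), zero_mul]
    · intro h; exact absurd (Finset.mem_univ _) h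
    · intro l _ hl
      simp only [Dm, Matrix.of_apply]
      rw [if_neg (by rw [add_zero]; exact hl), mul_zero]
    · intro h; exact absurd (Finset.mem_univ _) h
  have h2 : ∀ i j, M i (j + 1) = M (i - 1) j := by
    intro i j
    have h3 := congrFun (congrFun hX i) j
    rw [Matrix.mul_apply, Matrix.mul_apply, Finset.sum_eq_single (j + 1),
      Finset.sum_eq_single (i - 1)] at h3
    · simpa [Dm, R503.SIC.e_zero] using h3
    · intro l _ hl
      simp only [Dm, Matrix.of_apply]
      rw [if_neg (fun h => hl (by rw [h]; ring)), zero_mul]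
    · intro h; exact absurd (Finset.mem_univ _) h
    · intro l _ hl
      simp only [Dm, Matrix.of_apply]
      rw [if_neg hl, mul_zero]
    · intro h; exact absurd (Finset.mem_univ _) h
  have h3 : ∀ i j, i ≠ j → M i j = 0 := by
    intro i j hij
    by_contra h4
    apply hij
    have h5 : M i j * (e j - e i) = 0 := by linear_combination h1 i j
    rcases mul_eq_zero.1 h5 with h6 | h6
    · exact absurd h6 h4
    · exact (R503.SIC.e_inj (sub_eq_zero.1 h6)).symm
  have h4 : ∀ n : ℕ, M (n : ZMod d) (n : ZMod d) = M 0 0 := by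
    intro n
    induction n with
    | zero => simp
    | succ n ih =>
      have := h2 ((n : ZMod d) + 1) (n : ZMod d)
      rw [add_sub_cancel_right] at this
      push_cast
      rw [this, ih]
  refine ⟨M 0 0, ?_⟩
  ext i j
  rw [Matrix.smul_apply, Matrix.one_apply]
  by_cases hij : i = j
  · subst hij
    have := h4 i.val
    rw [ZMod.natCast_zmod_val] at this
    rw [if_pos rfl, this, smul_eq_mul, mul_one]
  · rw [if_neg hij, h3 i j hij, smul_zero]

/-- the trace of a displacement operator -/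
theorem trace_DD (v : Fin 2 → ZMod d) : (DD v).trace = if v = 0 then (d : ℂ) else 0 := by
  by_cases hv : v = 0
  · rw [if_pos hv, hv, DD_zero, Matrix.trace_one, ZMod.card]
  · rw [if_neg hv, Matrix.trace]
    simp only [Matrix.diag_apply, DD, Dm, Matrix.of_apply]
    by_cases h0 : v 0 = 0
    · have h1 : v 1 ≠ 0 := by
        intro h1
        apply hv
        ext i
        fin_cases i
        · exact h0
        · exact h1
      have h2 := R503.SIC.sum_e (v 1)
      rw [if_neg h1] at h2
      rw [← h2]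
      refine Finset.sum_congr rfl fun i _ => ?_
      rw [if_pos (by rw [h0, add_zero]), mul_comm]
    · apply Finset.sum_eq_zero
      intro i _
      rw [if_neg]
      intro h
      apply h0
      have : i + 0 = i + v 0 := by rw [add_zero]; exact h
      exact (add_left_cancel this).symm

/-- adjoints of displacement operators -/
theorem DD_adj (v : Fin 2 → ZMod d) : (DD v).conjTranspose = e (v 0 * v 1) • DD (-v) := by
  ext i j
  simp only [DD, Dm, Matrix.conjTranspose_apply, Matrix.of_apply, Matrix.smul_apply, smul_eq_mul,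
    Pi.neg_apply]
  by_cases h : j = i + v 0
  · rw [if_pos h, if_pos (by rw [h]; ring)]
    change conj (e (v 1 * i)) = _
    rw [R503.SIC.conj_e, ← R503.SIC.e_add]
    congr 1
    rw [h]
    ring
  · rw [if_neg h, if_neg (fun h' => h (by rw [h']; ring)), mul_zero]
    exact star_zero ℂ

theorem DD_mul_adj (v : Fin 2 → ZMod d) : DD v * (DD v).conjTranspose = 1 := by
  rw [DD_adj, Matrix.mul_smul, DD_mul, smul_smul, ← R503.SIC.e_add]
  have : v 0 * v 1 + v 1 * (-v) 0 = 0 := by
    rw [Pi.neg_apply]; ring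
  rw [this, R503.SIC.e_zero, one_smul, add_neg_cancel, DD_zero]

theorem DD_adj_mul (v : Fin 2 → ZMod d) : (DD v).conjTranspose * DD v = 1 := by
  rw [DD_adj, Matrix.smul_mul, DD_mul, smul_smul, ← R503.SIC.e_add]
  have : v 0 * v 1 + (-v) 1 * v 0 = 0 := by
    rw [Pi.neg_apply]; ring
  rw [this, R503.SIC.e_zero, one_smul, neg_add_cancel, DD_zero]

end Pool.Agent.Run7.h40.SICS
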