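import Mathlib
import Pool.Agent.Run7.h40.SICS.Symp

set_option autoImplicit false

/-! # Traces of symmetries of a fiducial vector -/

namespace Pool.Agent.Run7.h40.SICS

open Finset Matrix
open R503.SIC (Dm Nrm e Fid ov)
open scoped ComplexConjugate

variable {d : ℕ} [NeZero d]

/-- conjugating by all displacement operators and adding up -/
theorem twirl (M : Matrix (ZMod d) (ZMod d) ℂ) :
    ∑ v : Fin 2 → ZMod d, DD v * M * (DD v)ᴴ = ((d : ℂ) * M.trace) • 1 := by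
  obtain ⟨T, hT⟩ : ∃ T, T = ∑ v : Fin 2 → ZMod d, DD v * M * (DD v)ᴴ := ⟨_, rfl⟩
  rw [← hT]
  have h1 : ∀ w : Fin 2 → ZMod d, DD w * T * (DD w)ᴴ = T := by
    intro w
    rw [hT, Finset.mul_sum, Finset.sum_mul]
    refine Fintype.sum_equiv (Equiv.addLeft w) _ _ fun v => ?_
    simp only [Equiv.coe_addLeft]
    have h2 : DD w * (DD v * M * (DD v)ᴴ) * (DD w)ᴴ = (DD w * DD v) * M * (DD w * DD v)ᴴ := by
      rw [Matrix.conjTranspose_mul]
      noncomm_ring
    rw [h2, DD_mul, Matrix.conjTranspose_smul, Matrix.smul_mul, Matrix.smul_mul,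
      Matrix.mul_smul, smul_smul]
    have h3 : e (w 1 * v 0) * star (e (w 1 * v 0)) = 1 := by
      change e (w 1 * v 0) * conj (e (w 1 * v 0)) = 1
      rw [R503.SIC.conj_e, R503.SIC.e_mul_neg]
    rw [h3, one_smul]
  have h2 : ∀ w : Fin 2 → ZMod d, T * DD w = DD w * T := by
    intro w
    conv_lhs => rw [← h1 w]
    rw [mul_assoc, DD_adj_mul, mul_one]
  obtain ⟨s, hs⟩ := scalar_of_comm h2
  have h3 : T.trace = (d : ℂ) ^ 2 * M.trace := by
    rw [hT, Matrix.trace_sum]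
    have h4 : ∀ v ∈ (Finset.univ : Finset (Fin 2 → ZMod d)),
        (DD v * M * (DD v)ᴴ).trace = M.trace := by
      intro v _
      rw [Matrix.trace_mul_comm, ← mul_assoc, DD_adj_mul, one_mul]
    rw [Finset.sum_congr rfl h4, Finset.sum_const, Finset.card_univ, Fintype.card_fun, ZMod.card,
      Fintype.card_fin, nsmul_eq_mul]
    push_cast
    ring
  have hd : (d : ℂ) ≠ 0 := by exact_mod_cast NeZero.ne d
  rw [hs, Matrix.trace_smul, Matrix.trace_one, ZMod.card, smul_eq_mul] at h3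
  have h4 : s = (d : ℂ) * M.trace := by
    apply mul_right_cancel₀ hd
    rw [h3]; ring
  rw [hs, h4]

theorem overlap_eq (ψ : ZMod d → ℂ) (v : Fin 2 → ZMod d) :
    star ψ ⬝ᵥ (DD v *ᵥ ψ) = ov ψ (v 0) (v 1) := by
  unfold R503.SIC.ov
  have h1 : ∀ i, (DD v *ᵥ ψ) i = e (v 1 * (i - v 0)) * ψ (i - v 0) := by
    intro i
    rw [Matrix.mulVec, dotProduct, Finset.sum_eq_single (i - v 0)]
    · simp [DD, Dm]
    · intro j _ hj
      simp only [DD, Dm, Matrix.of_apply]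
      rw [if_neg (fun h => hj (by rw [h]; ring)), zero_mul]
    · intro h; exact absurd (Finset.mem_univ _) h
  rw [dotProduct]
  refine Fintype.sum_equiv (Equiv.subRight (v 0)) _ _ fun i => ?_
  rw [h1, Pi.star_apply]
  simp

theorem overlap_ne {ψ : ZMod d → ℂ} (hψ : Fid ψ) (v : Fin 2 → ZMod d) :
    star ψ ⬝ᵥ (DD v *ᵥ ψ) ≠ 0 := by
  intro h
  by_cases hv : v = 0
  · rw [hv, DD_zero, Matrix.one_mulVec] at h
    have h1 := hψ.1
    have h2 : star ψ ⬝ᵥ ψ = ((∑ j, ‖ψ j‖ ^ 2 : ℝ) : ℂ) := by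
      rw [dotProduct, Complex.ofReal_sum]
      refine Finset.sum_congr rfl fun i _ => ?_
      exact R503.SIC.conj_mul_self' _
    rw [h2, h1] at h
    simp at h
  · have h1 := hψ.2 (v 0) (v 1) (by
      intro h2
      rw [Prod.mk.injEq] at h2
      apply hv
      ext i
      fin_cases i
      · exact h2.1
      · exact h2.2)
    rw [← overlap_eq, h, norm_zero] at h1
    have hd : (0 : ℝ) < d := by exact_mod_cast Nat.pos_of_ne_zero (NeZero.ne d)
    have : (0 : ℝ) < 1 / ((d : ℝ) + 1) := by positivity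
    rw [← h1] at this
    norm_num at this

/-- if a unitary fixes the fiducial and commutes with a displacement operator up to a scalar then
it commutes with it -/
theorem comm_exact {ψ : ZMod d → ℂ} (hψ : Fid ψ) {U : Matrix (ZMod d) (ZMod d) ℂ}
    (hU : Uᴴ * U = 1) (hf : U *ᵥ ψ = ψ) {v : Fin 2 → ZMod d} {c : ℂ}
    (h : U * DD v = c • (DD v * U)) : c = 1 := by
  have hf' : Uᴴ *ᵥ ψ = ψ := by
    conv_lhs => rw [← hf]
    rw [Matrix.mulVec_mulVec, hU, Matrix.one_mulVec]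
  have h1 : star ψ ⬝ᵥ ((U * DD v) *ᵥ ψ) = star ψ ⬝ᵥ (DD v *ᵥ ψ) := by
    rw [← Matrix.mulVec_mulVec, Matrix.dotProduct_mulVec]
    congr 1
    have h2 := Matrix.star_mulVec Uᴴ ψ
    rw [Matrix.conjTranspose_conjTranspose, hf'] at h2
    exact h2.symm
  rw [h, Matrix.smul_mulVec, ← Matrix.mulVec_mulVec, hf, dotProduct_smul, smul_eq_mul] at h1
  exact mul_right_cancel₀ (overlap_ne hψ v) (by rw [one_mul]; exact h1)

/-- the fixed displacements -/
def Fix (F : Matrix (Fin 2) (Fin 2) (ZMod d)) : Finset (Fin 2 → ZMod d) :=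
  univ.filter fun v => F *ᵥ v = v

theorem mem_Fix {F : Matrix (Fin 2) (Fin 2) (ZMod d)} {v : Fin 2 → ZMod d} :
    v ∈ Fix F ↔ F *ᵥ v = v := by
  unfold Fix
  rw [Finset.mem_filter]
  exact ⟨fun h => h.2, fun h => ⟨Finset.mem_univ _, h⟩⟩

/-- **the trace of a symmetry** -/
theorem trace_sq {ψ : ZMod d → ℂ} (hψ : Fid ψ) {U : Matrix (ZMod d) (ZMod d) ℂ}
    (hU : Uᴴ * U = 1) (hf : U *ᵥ ψ = ψ) {F : Matrix (Fin 2) (Fin 2) (ZMod d)} (hF : Rep U F) :
    ‖U.trace‖ ^ 2 = (Fix F).card := by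
  have hU' : U * Uᴴ = 1 := mul_eq_one_comm.1 hU
  have h1 := congrArg (fun M => (M * Uᴴ).trace) (twirl U)
  simp only [Finset.sum_mul, Matrix.trace_sum] at h1
  rw [Matrix.smul_mul, Matrix.trace_smul, one_mul, Matrix.trace_conjTranspose, smul_eq_mul] at h1
  have hterm : ∀ v : Fin 2 → ZMod d, (DD v * U * (DD v)ᴴ * Uᴴ).trace =
      if F *ᵥ v = v then (d : ℂ) else 0 := by
    intro v
    obtain ⟨c, hc⟩ := hF v
    have h2 : U * (DD v)ᴴ * Uᴴ = star c • (DD (F *ᵥ v))ᴴ := by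
      have h3 : U * DD v * Uᴴ = c • DD (F *ᵥ v) := by
        rw [hc, Matrix.smul_mul, mul_assoc, hU', mul_one]
      have h4 := congrArg Matrix.conjTranspose h3
      rw [Matrix.conjTranspose_mul, Matrix.conjTranspose_mul, Matrix.conjTranspose_conjTranspose,
        Matrix.conjTranspose_smul] at h4
      rw [← h4, mul_assoc]
    have h5 : DD v * U * (DD v)ᴴ * Uᴴ = DD v * (U * (DD v)ᴴ * Uᴴ) := by noncomm_ring
    rw [h5, h2, Matrix.mul_smul, Matrix.trace_smul, smul_eq_mul]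
    by_cases hv : F *ᵥ v = v
    · rw [if_pos hv]
      rw [hv] at hc
      rw [comm_exact hψ hU hf hc, star_one, one_mul, hv, DD_mul_adj, Matrix.trace_one, ZMod.card]
    · rw [if_neg hv, DD_adj, Matrix.mul_smul, DD_mul, Matrix.trace_smul, Matrix.trace_smul,
        trace_DD, if_neg, smul_zero, smul_zero, mul_zero]
      intro h6
      exact hv (add_neg_eq_zero.1 h6).symm
  rw [Finset.sum_congr rfl fun v _ => hterm v, ← Finset.sum_filter, Finset.sum_const,
    nsmul_eq_mul] at h1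
  have hd : (d : ℂ) ≠ 0 := by exact_mod_cast NeZero.ne d
  have h2 : ((Fix F).card : ℂ) = U.trace * star U.trace := by
    apply mul_right_cancel₀ hd
    unfold Fix
    rw [h1]
    ring
  have h3 : U.trace * star U.trace = ((‖U.trace‖ ^ 2 : ℝ) : ℂ) := by
    rw [← R503.SIC.conj_mul_self', mul_comm]
    rfl
  rw [h3] at h2
  exact_mod_cast h2.symm

/-- overlaps of displaced fiducials -/
theorem overlap_pair {ψ : ZMod d → ℂ} (hψ : Fid ψ) (v w : Fin 2 → ZMod d) :
    ‖star (DD w *ᵥ ψ) ⬝ᵥ (DD v *ᵥ ψ)‖ ^ 2 = if v = w then 1 else 1 / ((d : ℝ) + 1) := by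
  have h1 : star (DD w *ᵥ ψ) ⬝ᵥ (DD v *ᵥ ψ) =
      e (w 0 * w 1) * (e (-(w 1) * v 0) * (star ψ ⬝ᵥ (DD (v - w) *ᵥ ψ))) := by
    rw [Matrix.star_mulVec, ← Matrix.dotProduct_mulVec, Matrix.mulVec_mulVec, DD_adj,
      Matrix.smul_mul, DD_mul, smul_smul, Matrix.smul_mulVec, dotProduct_smul, smul_eq_mul,
      mul_assoc, neg_add_eq_sub]
    rfl
  rw [h1, norm_mul, norm_mul, R503.SIC.norm_e, R503.SIC.norm_e, one_mul, one_mul]
  by_cases hv : v = w
  · rw [if_pos hv, hv, sub_self, DD_zero, Matrix.one_mulVec]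
    have h2 : star ψ ⬝ᵥ ψ = ((∑ j, ‖ψ j‖ ^ 2 : ℝ) : ℂ) := by
      rw [dotProduct, Complex.ofReal_sum]
      refine Finset.sum_congr rfl fun i _ => ?_
      exact R503.SIC.conj_mul_self' _
    rw [h2, hψ.1]
    simp
  · rw [if_neg hv, overlap_eq]
    apply hψ.2
    intro h2
    rw [Prod.mk.injEq] at h2
    apply hv
    ext i
    fin_cases i
    · exact sub_eq_zero.1 h2.1
    · exact sub_eq_zero.1 h2.2

end Pool.Agent.Run7.h40.SICS
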