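import Mathlib
import Pool.Agent.Run7.h40.SICS.Trace

set_option autoImplicit false

/-! # The Welch bound for displacements fixed by a group of symmetries -/

namespace Pool.Agent.Run7.h40.SICS

open Finset Matrix
open R503.SIC (Dm Nrm e Fid ov)
open scoped ComplexConjugate

variable {d : ℕ} [NeZero d]

/-- Cauchy–Schwarz for the Hilbert–Schmidt inner product -/
theorem cauchy (A B : Matrix (ZMod d) (ZMod d) ℂ) :
    ‖∑ i, ∑ j, conj (A i j) * B i j‖ ^ 2 ≤ (∑ i, ∑ j, ‖A i j‖ ^ 2) * ∑ i, ∑ j, ‖B i j‖ ^ 2 := by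
  have h1 : ‖∑ i, ∑ j, conj (A i j) * B i j‖ ≤ ∑ i, ∑ j, ‖A i j‖ * ‖B i j‖ := by
    refine (norm_sum_le _ _).trans (Finset.sum_le_sum fun i _ => ?_)
    refine (norm_sum_le _ _).trans (Finset.sum_le_sum fun j _ => ?_)
    rw [norm_mul, R503.SIC.norm_conj']
  have h2 : (∑ i, ∑ j, ‖A i j‖ * ‖B i j‖) ^ 2 ≤
      (∑ i, ∑ j, ‖A i j‖ ^ 2) * ∑ i, ∑ j, ‖B i j‖ ^ 2 := by
    rw [← Finset.sum_product', ← Finset.sum_product', ← Finset.sum_product']
    exact Finset.sum_mul_sq_le_sq_mul_sq _ _ _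
  refine le_trans ?_ h2
  exact pow_le_pow_left₀ (norm_nonneg _) h1 2

theorem hs_self (A : Matrix (ZMod d) (ZMod d) ℂ) :
    ((∑ i, ∑ j, ‖A i j‖ ^ 2 : ℝ) : ℂ) = (A * Aᴴ).trace := by
  rw [Matrix.trace]
  push_cast
  refine Finset.sum_congr rfl fun i _ => ?_
  rw [Matrix.diag_apply, Matrix.mul_apply]
  refine Finset.sum_congr rfl fun j _ => ?_
  rw [Matrix.conjTranspose_apply]
  have := R503.SIC.conj_mul_self' (A i j)
  push_cast at this
  rw [← this, mul_comm]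
  rfl

variable {ι : Type*} [Group ι] [Fintype ι]

theorem welch {ψ : ZMod d → ℂ} (hψ : Fid ψ) (u : ι →* Matrix (ZMod d) (ZMod d) ℂ)
    (hs : ∀ g, (u g)ᴴ = u g⁻¹) (hf : ∀ g, u g *ᵥ ψ = ψ) (K : Finset (Fin 2 → ZMod d))
    (hK : ∀ v ∈ K, ∀ g, u g * DD v = DD v * u g) (hK0 : K.Nonempty) :
    (Fintype.card ι : ℝ) * K.card * (d + 1) ≤ (d + K.card) * ∑ g, ‖(u g).trace‖ := by
  classical
  obtain ⟨Q, hQ⟩ : ∃ Q, Q = ∑ g, u g := ⟨_, rfl⟩
  obtain ⟨φ, hφ⟩ : ∃ φ : (Fin 2 → ZMod d) → ZMod d → ℂ, φ = fun v => DD v *ᵥ ψ := ⟨_, rfl⟩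
  obtain ⟨G, hG⟩ : ∃ G : Matrix (ZMod d) (ZMod d) ℂ,
    G = Matrix.of fun i j => ∑ v ∈ K, φ v i * conj (φ v j) := ⟨_, rfl⟩
  obtain ⟨n, hn⟩ : ∃ n : ℝ, n = Fintype.card ι := ⟨_, rfl⟩
  obtain ⟨m, hm⟩ : ∃ m : ℝ, m = K.card := ⟨_, rfl⟩
  have hn0 : 0 < n := by
    rw [hn]; exact_mod_cast Fintype.card_pos
  have hm0 : 0 < m := by
    rw [hm]; exact_mod_cast Finset.card_pos.2 hK0
  have hd0 : (0 : ℝ) < d := by exact_mod_cast Nat.pos_of_ne_zero (NeZero.ne d)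
  -- `Q` is self-adjoint and `Q * Q = n Q`
  have hQadj : Qᴴ = Q := by
    rw [hQ, Matrix.conjTranspose_sum]
    simp only [hs]
    exact Fintype.sum_equiv (Equiv.inv ι) _ _ fun g => rfl
  have hQQ : Q * Q = (n : ℂ) • Q := by
    have h1 : ∀ g, u g * Q = Q := by
      intro g
      rw [hQ, Finset.mul_sum]
      refine Fintype.sum_equiv (Equiv.mulLeft g) _ _ fun h => ?_
      rw [Equiv.coe_mulLeft, map_mul]
    conv_lhs => rw [hQ, Finset.sum_mul, ← hQ]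
    rw [Finset.sum_congr rfl fun g _ => h1 g, Finset.sum_const, Finset.card_univ, hn]
    rw [← Nat.cast_smul_eq_nsmul ℂ]
    norm_cast
  have hQn : (∑ i, ∑ j, ‖Q i j‖ ^ 2 : ℝ) ≤ n * ∑ g, ‖(u g).trace‖ := by
    have h1 := hs_self Q
    rw [hQadj, hQQ, Matrix.trace_smul, smul_eq_mul] at h1
    have h2 : ‖((∑ i, ∑ j, ‖Q i j‖ ^ 2 : ℝ) : ℂ)‖ = (∑ i, ∑ j, ‖Q i j‖ ^ 2 : ℝ) := by
      rw [Complex.norm_real, Real.norm_eq_abs, abs_of_nonneg]
      exact Finset.sum_nonneg fun i _ => Finset.sum_nonneg fun j _ => by positivity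
    rw [← h2, h1, norm_mul, Complex.norm_real, Real.norm_eq_abs, abs_of_pos hn0]
    apply mul_le_mul_of_nonneg_left _ hn0.le
    rw [hQ, Matrix.trace_sum]
    exact norm_sum_le _ _
  -- the vectors `φ v`
  have hQφ : ∀ v ∈ K, Q *ᵥ φ v = (n : ℂ) • φ v := by
    intro v hv
    have h1 : ∀ g, u g *ᵥ φ v = φ v := by
      intro g
      rw [hφ]
      simp only [Matrix.mulVec_mulVec]
      rw [hK v hv g, ← Matrix.mulVec_mulVec, hf g]
    rw [hQ, Matrix.sum_mulVec]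
    rw [Finset.sum_congr rfl fun g _ => h1 g, Finset.sum_const, Finset.card_univ, hn]
    rw [← Nat.cast_smul_eq_nsmul ℂ]
    norm_cast
  have hφn : ∀ v w, ‖star (φ w) ⬝ᵥ φ v‖ ^ 2 = if v = w then 1 else 1 / ((d : ℝ) + 1) := by
    intro v w
    rw [hφ]
    exact overlap_pair hψ v w
  have hφ1 : ∀ v, star (φ v) ⬝ᵥ φ v = 1 := by
    intro v
    have h1 : star (φ v) ⬝ᵥ φ v = ((∑ j, ‖φ v j‖ ^ 2 : ℝ) : ℂ) := by
      rw [dotProduct, Complex.ofReal_sum]
      refine Finset.sum_congr rfl fun i _ => ?_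
      exact R503.SIC.conj_mul_self' _
    have h2 := hφn v v
    rw [if_pos rfl, h1, Complex.norm_real, Real.norm_eq_abs, sq_abs] at h2
    have h3 : (0 : ℝ) ≤ ∑ j, ‖φ v j‖ ^ 2 := Finset.sum_nonneg fun i _ => by positivity
    have h4 : ∑ j, ‖φ v j‖ ^ 2 = 1 := by nlinarith
    rw [h1, h4]
    simp
  have hcross : ∑ i, ∑ j, conj (Q i j) * G i j = (n : ℂ) * m := by
    have h1 : ∑ i, ∑ j, conj (Q i j) * G i j =
        ∑ v ∈ K, conj (star (φ v) ⬝ᵥ (Q *ᵥ φ v)) := by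
      have h2 : ∀ v, conj (star (φ v) ⬝ᵥ (Q *ᵥ φ v)) =
          ∑ i, ∑ j, conj (Q i j) * (φ v i * conj (φ v j)) := by
        intro v
        rw [dotProduct, map_sum]
        refine Finset.sum_congr rfl fun i _ => ?_
        rw [Matrix.mulVec, dotProduct, map_mul, map_sum, Finset.mul_sum]
        refine Finset.sum_congr rfl fun j _ => ?_
        rw [map_mul, Pi.star_apply]
        change conj (conj (φ v i)) * (conj (Q i j) * conj (φ v j)) = _
        rw [Complex.conj_conj]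
        ring
      conv_rhs => rw [Finset.sum_congr rfl fun v _ => h2 v, Finset.sum_comm]
      refine Finset.sum_congr rfl fun i _ => ?_
      conv_rhs => rw [Finset.sum_comm]
      refine Finset.sum_congr rfl fun j _ => ?_
      rw [hG, Matrix.of_apply, Finset.mul_sum]
    rw [h1]
    have h3 : ∀ v ∈ K, conj (star (φ v) ⬝ᵥ (Q *ᵥ φ v)) = (n : ℂ) := by
      intro v hv
      rw [hQφ v hv, dotProduct_smul, hφ1, smul_eq_mul, mul_one, Complex.conj_ofReal]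
    rw [Finset.sum_congr rfl h3, Finset.sum_const, nsmul_eq_mul, hm]
    push_cast
    ring
  have hGn : (∑ i, ∑ j, ‖G i j‖ ^ 2 : ℝ) = m + m * (m - 1) / (d + 1) := by
    have h1 : ((∑ i, ∑ j, ‖G i j‖ ^ 2 : ℝ) : ℂ) =
        ((∑ v ∈ K, ∑ w ∈ K, ‖star (φ w) ⬝ᵥ φ v‖ ^ 2 : ℝ) : ℂ) := by
      have h2 : ((∑ v ∈ K, ∑ w ∈ K, ‖star (φ w) ⬝ᵥ φ v‖ ^ 2 : ℝ) : ℂ) =
          ∑ v ∈ K, ∑ w ∈ K, ∑ i, ∑ j, (conj (φ w i) * φ v i) * (φ w j * conj (φ v j)) := by
        push_cast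
        refine Finset.sum_congr rfl fun v _ => Finset.sum_congr rfl fun w _ => ?_
        have h3 := R503.SIC.conj_mul_self' (star (φ w) ⬝ᵥ φ v)
        push_cast at h3
        rw [← h3, mul_comm, dotProduct, map_sum, Finset.sum_mul_sum]
        refine Finset.sum_congr rfl fun i _ => Finset.sum_congr rfl fun j _ => ?_
        rw [map_mul, Pi.star_apply, Pi.star_apply]
        change conj (φ w i) * φ v i * (conj (conj (φ w j)) * conj (φ v j)) = _
        rw [Complex.conj_conj]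
      rw [h2]
      have h4 : ((∑ i, ∑ j, ‖G i j‖ ^ 2 : ℝ) : ℂ) =
          ∑ i, ∑ j, ∑ v ∈ K, ∑ w ∈ K, (conj (φ w i) * φ v i) * (φ w j * conj (φ v j)) := by
        push_cast
        refine Finset.sum_congr rfl fun i _ => Finset.sum_congr rfl fun j _ => ?_
        have h3 := R503.SIC.conj_mul_self' (G i j)
        push_cast at h3
        rw [← h3, mul_comm, hG, Matrix.of_apply, map_sum, Finset.sum_mul_sum]
        refine Finset.sum_congr rfl fun v _ => Finset.sum_congr rfl fun w _ => ?_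
        rw [map_mul, Complex.conj_conj]
        ring
      rw [h4, Finset.sum_congr rfl fun i _ => Finset.sum_comm, Finset.sum_comm]
      refine Finset.sum_congr rfl fun v _ => ?_
      rw [Finset.sum_congr rfl fun i _ => Finset.sum_comm, Finset.sum_comm]
    have h5 : (∑ i, ∑ j, ‖G i j‖ ^ 2 : ℝ) = ∑ v ∈ K, ∑ w ∈ K, ‖star (φ w) ⬝ᵥ φ v‖ ^ 2 := by
      exact_mod_cast h1
    rw [h5]
    simp only [hφn]
    have h6 : ∀ v ∈ K, ∑ w ∈ K, (if v = w then (1 : ℝ) else 1 / ((d : ℝ) + 1)) =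
        1 + (m - 1) / (d + 1) := by
      intro v hv
      rw [← Finset.add_sum_erase _ _ hv, if_pos rfl]
      congr 1
      rw [Finset.sum_congr rfl (g := fun _ => 1 / ((d : ℝ) + 1)) (fun w hw => by
        rw [if_neg]; exact (Finset.ne_of_mem_erase hw).symm), Finset.sum_const,
        Finset.card_erase_of_mem hv, nsmul_eq_mul, Nat.cast_sub (Finset.card_pos.2 hK0), hm]
      push_cast
      ring
    rw [Finset.sum_congr rfl h6, Finset.sum_const, nsmul_eq_mul, ← hm]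
    ring
  have hcs := cauchy Q G
  rw [hcross, hGn] at hcs
  have h1 : ‖(n : ℂ) * m‖ = n * m := by
    rw [norm_mul, Complex.norm_real, Complex.norm_real, Real.norm_eq_abs, Real.norm_eq_abs,
      abs_of_pos hn0, abs_of_pos hm0]
  rw [h1] at hcs
  obtain ⟨T, hT⟩ : ∃ T, T = ∑ g, ‖(u g).trace‖ := ⟨_, rfl⟩
  rw [← hT] at hQn
  have hT0 : 0 ≤ T := by rw [hT]; exact Finset.sum_nonneg fun _ _ => norm_nonneg _
  have hpos : 0 ≤ m + m * (m - 1) / (d + 1) := by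
    rw [← hGn]
    exact Finset.sum_nonneg fun i _ => Finset.sum_nonneg fun j _ => by positivity
  have h2 : (n * m) ^ 2 ≤ n * T * (m + m * (m - 1) / (d + 1)) :=
    hcs.trans (mul_le_mul_of_nonneg_right hQn hpos)
  have h3 : n * T * (m + m * (m - 1) / (d + 1)) = n * m * (T * (d + m)) / (d + 1) := by
    field_simp
    ring
  rw [h3, le_div_iff₀ (by positivity)] at h2
  rw [← hn, ← hm, ← hT]
  have h4 : n * m * (n * m * (d + 1)) ≤ n * m * ((d + m) * T) := by nlinarith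
  exact le_of_mul_le_mul_left h4 (by positivity)

end Pool.Agent.Run7.h40.SICS
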