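import Mathlib
import Pool.Agent.Run7.h40.SICS.Welch
import Pool.Agent.Run7.h40.SICS.Two

set_option autoImplicit false

/-! # Symmetry groups of fiducials in prime power dimensions -/

namespace Pool.Agent.Run7.h40.SICS

open Finset Matrix
open R503.SIC (Dm Nrm e Fid ov)
open scoped ComplexConjugate

variable {d : ℕ} [NeZero d]

/-- a group of Clifford unitaries fixing `ψ` -/
structure IsSym (ψ : ZMod d → ℂ) {G : Type*} [Group G] (u : G →* Matrix (ZMod d) (ZMod d) ℂ) :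
    Prop where
  inj : Function.Injective u
  adj : ∀ g, (u g)ᴴ = u g⁻¹
  nrm : ∀ g, Nrm (u g)
  fix : ∀ g, u g *ᵥ ψ = ψ

section

variable {ψ : ZMod d → ℂ} {G : Type*} [Group G] {u : G →* Matrix (ZMod d) (ZMod d) ℂ}

theorem IsSym.adj_mul (h : IsSym ψ u) (g : G) : (u g)ᴴ * u g = 1 := by
  rw [h.adj, ← map_mul, inv_mul_cancel, map_one]

theorem isUnit_u (u : G →* Matrix (ZMod d) (ZMod d) ℂ) (g : G) : IsUnit (u g) :=
  (Group.isUnit g).map u

theorem IsSym.exists_rho (h : IsSym ψ u) :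
    ∃ ρ : G →* Matrix (Fin 2) (Fin 2) (ZMod d), ∀ g, Rep (u g) (ρ g) := by
  choose F hF using fun g => exists_rep (isUnit_u u g) (h.nrm g)
  refine ⟨⟨⟨F, ?_⟩, ?_⟩, hF⟩
  · refine Rep.unique (isUnit_u u 1) (hF 1) ?_
    rw [map_one]
    exact Rep.one
  · intro g g'
    refine Rep.unique (isUnit_u u (g * g')) (hF _) ?_
    rw [map_mul]
    exact (hF g).mul (hF g')

theorem IsSym.comm (h : IsSym ψ u) (hψ : Fid ψ) {ρ : G →* Matrix (Fin 2) (Fin 2) (ZMod d)}
    (hρ : ∀ g, Rep (u g) (ρ g)) {g : G} {v : Fin 2 → ZMod d} (hv : ρ g *ᵥ v = v) :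
    u g * DD v = DD v * u g := by
  obtain ⟨c, hc⟩ := hρ g v
  rw [hv] at hc
  have := comm_exact hψ (h.adj_mul g) (h.fix g) hc
  rw [this, one_smul] at hc
  exact hc

theorem psi_ne (hψ : Fid ψ) : ψ ≠ 0 := by
  rintro rfl
  have := hψ.1
  simp at this

theorem IsSym.eq_one (h : IsSym ψ u) (hψ : Fid ψ) {ρ : G →* Matrix (Fin 2) (Fin 2) (ZMod d)}
    (hρ : ∀ g, Rep (u g) (ρ g)) {g : G} (hg : ρ g = 1) : g = 1 := by
  have h1 : ∀ v : Fin 2 → ZMod d, u g * DD v = DD v * u g := by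
    intro v
    exact h.comm hψ hρ (by rw [hg, Matrix.one_mulVec])
  obtain ⟨s, hs⟩ := scalar_of_comm h1
  have h2 := h.fix g
  rw [hs, Matrix.smul_mulVec, Matrix.one_mulVec] at h2
  have h3 : s = 1 := by
    have h4 : (s - 1) • ψ = 0 := by rw [sub_smul, one_smul, h2, sub_self]
    rcases smul_eq_zero.1 h4 with h5 | h5
    · exact sub_eq_zero.1 h5
    · exact absurd h5 (psi_ne hψ)
  apply h.inj
  rw [hs, h3, one_smul, map_one]

theorem IsSym.rho_inj (h : IsSym ψ u) (hψ : Fid ψ) {ρ : G →* Matrix (Fin 2) (Fin 2) (ZMod d)}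
    (hρ : ∀ g, Rep (u g) (ρ g)) : Function.Injective ρ := by
  intro g g' hgg
  have h1 : ρ (g * g'⁻¹) = 1 := by
    rw [map_mul, hgg, ← map_mul, mul_inv_cancel, map_one]
  have h2 := h.eq_one hψ hρ h1
  exact mul_inv_eq_one.1 h2

theorem IsSym.finite (h : IsSym ψ u) (hψ : Fid ψ) : Finite G := by
  obtain ⟨ρ, hρ⟩ := h.exists_rho
  exact Finite.of_injective ρ (h.rho_inj hψ hρ)

/-- the elements fixing a displacement -/
def stab (ρ : G →* Matrix (Fin 2) (Fin 2) (ZMod d)) (v : Fin 2 → ZMod d) : Subgroup G where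
  carrier := {g | ρ g *ᵥ v = v}
  one_mem' := by
    change ρ 1 *ᵥ v = v
    rw [map_one, Matrix.one_mulVec]
  mul_mem' := by
    intro a b ha hb
    change ρ (a * b) *ᵥ v = v
    rw [map_mul, ← Matrix.mulVec_mulVec]
    rw [show ρ b *ᵥ v = v from hb]
    exact ha
  inv_mem' := by
    intro a ha
    change ρ a⁻¹ *ᵥ v = v
    conv_lhs => rw [← show ρ a *ᵥ v = v from ha]
    rw [Matrix.mulVec_mulVec, ← map_mul, inv_mul_cancel, map_one, Matrix.one_mulVec]

theorem mem_stab {ρ : G →* Matrix (Fin 2) (Fin 2) (ZMod d)} {v : Fin 2 → ZMod d} {g : G} :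
    g ∈ stab ρ v ↔ ρ g *ᵥ v = v := Iff.rfl

/-- the inequality between dimension, order and number of fixed displacements -/
theorem IsSym.prime_ineq (h : IsSym ψ u) (hψ : Fid ψ) {ρ : G →* Matrix (Fin 2) (Fin 2) (ZMod d)}
    (hρ : ∀ g, Rep (u g) (ρ g)) {r : ℕ} (hr : r.Prime) {g : G} (hg : orderOf g = r) :
    (r : ℝ) * (Fix (ρ g)).card * (d + 1) ≤
      (d + (Fix (ρ g)).card) * (d + (r - 1) * Real.sqrt (Fix (ρ g)).card) := by
  classical
  have : Finite G := h.finite hψ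
  have : Fact r.Prime := ⟨hr⟩
  have : Fintype (Subgroup.zpowers g) := Fintype.ofFinite _
  have hcard : Nat.card (Subgroup.zpowers g) = r := by rw [Nat.card_zpowers, hg]
  obtain ⟨g₀, hg₀⟩ : ∃ g₀ : Subgroup.zpowers g, g₀ = ⟨g, Subgroup.mem_zpowers g⟩ := ⟨_, rfl⟩
  have hK : ∀ v ∈ Fix (ρ g), ∀ x : Subgroup.zpowers g, ρ x *ᵥ v = v := by
    intro v hv x
    have h1 : Subgroup.zpowers g ≤ stab ρ v := by
      rw [Subgroup.zpowers_le]
      exact mem_Fix.1 hv
    exact h1 x.2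
  have hw := welch hψ (u.comp (Subgroup.zpowers g).subtype) (fun x => by
      simpa using h.adj x) (fun x => h.fix x) (Fix (ρ g))
      (fun v hv x => h.comm hψ hρ (hK v hv x)) ⟨0, mem_Fix.2 (Matrix.mulVec_zero _)⟩
  have htr : ∀ x : Subgroup.zpowers g, ‖(u (x : G)).trace‖ ^ 2 = (Fix (ρ x)).card := fun x =>
    trace_sq hψ (h.adj_mul _) (h.fix _) (hρ _)
  have hsum : ∑ x : Subgroup.zpowers g, ‖((u.comp (Subgroup.zpowers g).subtype) x).trace‖ =
      d + (r - 1) * Real.sqrt (Fix (ρ g)).card := by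
    rw [← Finset.add_sum_erase _ _ (Finset.mem_univ 1)]
    congr 1
    · rw [map_one, Matrix.trace_one, ZMod.card]
      simp
    · have h2 : ∀ x ∈ (univ : Finset (Subgroup.zpowers g)).erase 1,
          ‖((u.comp (Subgroup.zpowers g).subtype) x).trace‖ = Real.sqrt (Fix (ρ g)).card := by
        intro x hx
        have hx1 : x ≠ 1 := Finset.ne_of_mem_erase hx
        have h3 : Fix (ρ x) = Fix (ρ g) := by
          apply Finset.Subset.antisymm
          · intro v hv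
            rw [mem_Fix] at hv ⊢
            have h4 : g₀ ∈ Subgroup.zpowers x := mem_zpowers_of_prime_card hcard hx1
            have h5 : g ∈ Subgroup.zpowers (x : G) := by
              obtain ⟨m, hm⟩ := Subgroup.mem_zpowers_iff.1 h4
              refine Subgroup.mem_zpowers_iff.2 ⟨m, ?_⟩
              have h6 := congrArg (fun y : Subgroup.zpowers g => (y : G)) hm
              simpa [hg₀] using h6
            have h7 : Subgroup.zpowers (x : G) ≤ stab ρ v := by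
              rw [Subgroup.zpowers_le]
              exact hv
            exact h7 h5
          · intro v hv
            exact mem_Fix.2 (hK v hv x)
        have h4 := htr x
        rw [h3] at h4
        rw [← h4, Real.sqrt_sq (norm_nonneg _)]
        rfl
      rw [Finset.sum_congr rfl h2, Finset.sum_const, Finset.card_erase_of_mem (Finset.mem_univ _),
        Finset.card_univ, ← Nat.card_eq_fintype_card, hcard, nsmul_eq_mul,
        Nat.cast_sub hr.one_lt.le, Nat.cast_one]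
  rw [hsum, ← Nat.card_eq_fintype_card, hcard] at hw
  exact hw

theorem real_ineq {r d s : ℝ} (hsd : s < d)
    (h : r * s ^ 2 * (d + 1) ≤ (d + s ^ 2) * (d + (r - 1) * s)) :
    (r - 1) * s * (s - 1) ≤ d + s := by
  have h1 : (d - s) * ((r - 1) * s * (s - 1) - (d + s)) ≤ 0 := by nlinarith
  by_contra hcon
  push Not at hcon
  have := mul_pos (sub_pos.2 hsd) (sub_pos.2 hcon)
  linarith

/-- the number of fixed displacements of a nontrivial symmetry is less than `d ^ 2` -/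
theorem IsSym.card_lt (h : IsSym ψ u) (hψ : Fid ψ) {ρ : G →* Matrix (Fin 2) (Fin 2) (ZMod d)}
    (hρ : ∀ g, Rep (u g) (ρ g)) {g : G} (hg : g ≠ 1) : (Fix (ρ g)).card < d ^ 2 := by
  have h3 : Fix (ρ g) ⊂ univ := by
    rw [Finset.ssubset_univ_iff]
    intro h4
    have h5 : ρ g = 1 := by
      apply Matrix.ext_of_mulVec_single
      intro i
      rw [Matrix.one_mulVec]
      have : (Pi.single i 1 : Fin 2 → ZMod d) ∈ Fix (ρ g) := by
        rw [h4]; exact Finset.mem_univ _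
      exact mem_Fix.1 this
    exact hg (h.eq_one hψ hρ h5)
  have h7 := Finset.card_lt_card h3
  rwa [Finset.card_univ, Fintype.card_fun, ZMod.card, Fintype.card_fin] at h7

/-- the inequality in its final form -/
theorem IsSym.prime_ineq' (h : IsSym ψ u) (hψ : Fid ψ) {ρ : G →* Matrix (Fin 2) (Fin 2) (ZMod d)}
    (hρ : ∀ g, Rep (u g) (ρ g)) {r : ℕ} (hr : r.Prime) {g : G} (hg : orderOf g = r) :
    ∃ s : ℝ, 0 ≤ s ∧ s ^ 2 = (Fix (ρ g)).card ∧ ((r : ℝ) - 1) * s * (s - 1) ≤ d + s := by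
  have h1 := h.prime_ineq hψ hρ hr hg
  have hne : g ≠ 1 := by
    rintro rfl
    rw [orderOf_one] at hg
    exact hr.one_lt.ne hg
  have hlt := h.card_lt hψ hρ hne
  have hκ0 : (0 : ℝ) ≤ (Fix (ρ g)).card := by positivity
  have hs2 := Real.sq_sqrt hκ0
  refine ⟨Real.sqrt (Fix (ρ g)).card, Real.sqrt_nonneg _, hs2, ?_⟩
  apply real_ineq
  · have hlt' : ((Fix (ρ g)).card : ℝ) < (d : ℝ) ^ 2 := by exact_mod_cast hlt
    rw [← Real.sqrt_sq (show (0 : ℝ) ≤ d by positivity)]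
    exact Real.sqrt_lt_sqrt hκ0 hlt'
  · rw [hs2]
    exact h1

/-! ## Dimensions with a dominant prime power factor -/

/-- `m p ^ k` is dominated by `p` -/
def Dom (p k m : ℕ) : Prop :=
  (k = 1 ∧ m + 1 < p ∧ p < (p - 1 - m) ^ 2) ∨ (2 ≤ k ∧ m + 2 + p ^ (k - 2) ≤ p ^ (k - 1))

variable {p k m D : ℕ} [NeZero D]

theorem Dom.lt (hp5 : 5 ≤ p) (h : Dom p k m) : m + 2 < p ^ k ∧ 1 ≤ k := by
  rcases h with ⟨h1, h2, h3⟩ | ⟨h1, h2⟩
  · rw [h1, pow_one]
    refine ⟨?_, le_rfl⟩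
    by_contra h4
    have h5 : p - 1 - m = 1 := by omega
    rw [h5] at h3
    omega
  · refine ⟨?_, by omega⟩
    have h3 : p ^ (k - 1) < p ^ k := Nat.pow_lt_pow_right (by omega) (by omega)
    omega

theorem IsSym.kernel_prime (h : IsSym ψ u) (hψ : Fid ψ)
    {ρ : G →* Matrix (Fin 2) (Fin 2) (ZMod d)} (hρ : ∀ g, Rep (u g) (ρ g)) (hd : d = m * D)
    (hD : m + 2 < D) {r : ℕ} (hr : r.Prime) {g : G} (hg : orderOf g = r)
    (hker : (ρ g).map (red hd) = 1) : False := by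
  obtain ⟨s, hs0, hs2, hs⟩ := h.prime_ineq' hψ hρ hr hg
  have h1 := card_fix_le hd (ρ g)
  have h2 : (univ.filter fun v : Fin 2 → ZMod D => ((ρ g).map (red hd)) *ᵥ v = v).card = D ^ 2 := by
    rw [hker]
    simp
  rw [h2] at h1
  have h3 : (D : ℝ) ^ 2 ≤ s ^ 2 := by
    rw [hs2]
    exact_mod_cast h1
  have hDpos : (0 : ℝ) < D := by exact_mod_cast Nat.pos_of_ne_zero (NeZero.ne D)
  have h4 : (D : ℝ) ≤ s := by nlinarith
  have hr2 : (2 : ℝ) ≤ r := by exact_mod_cast hr.two_le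
  have hD3 : (m : ℝ) + 3 ≤ D := by exact_mod_cast hD
  have hm0 : (0 : ℝ) ≤ m := by positivity
  have hdr : (d : ℝ) = m * D := by rw [hd]; push_cast; ring
  have h5 : s * (s - 1) ≤ (r - 1) * s * (s - 1) := by
    have h6 : 0 ≤ s * (s - 1) := mul_nonneg hs0 (by linarith)
    nlinarith
  have h6 : s * (s - 2) ≤ m * D := by nlinarith
  have h7 : (D : ℝ) * (D - 2) ≤ s * (s - 2) := by nlinarith
  have h8 : (D : ℝ) * (D - 2) ≤ D * m := by linarith
  have h9 := le_of_mul_le_mul_left h8 hDpos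
  linarith

theorem IsSym.kernel (h : IsSym ψ u) (hψ : Fid ψ)
    {ρ : G →* Matrix (Fin 2) (Fin 2) (ZMod d)} (hρ : ∀ g, Rep (u g) (ρ g)) (hd : d = m * D)
    (hD : m + 2 < D) {g : G} (hker : (ρ g).map (red hd) = 1) : g = 1 := by
  by_contra hg
  have : Finite G := h.finite hψ
  have h1 : orderOf g ≠ 1 := fun h2 => hg (orderOf_eq_one_iff.1 h2)
  obtain ⟨r, hr, n, hn⟩ := Nat.exists_prime_and_dvd h1
  have hpos : 0 < orderOf g := orderOf_pos g
  have hn0 : n ≠ 0 := by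
    rintro rfl
    rw [mul_zero] at hn
    omega
  have h2 : orderOf (g ^ n) = r := by
    rw [orderOf_pow' g hn0, hn, Nat.gcd_mul_left_left, Nat.mul_div_cancel _ (Nat.pos_of_ne_zero hn0)]
  refine h.kernel_prime hψ hρ hd hD hr h2 ?_
  have h3 : (ρ (g ^ n)).map (red hd) = ((ρ g).map (red hd)) ^ n := by
    rw [map_pow]
    exact map_pow (red hd).mapMatrix (ρ g) n
  rw [h3, hker, one_pow]

theorem one_ineq {p m s : ℝ} (hp : 5 ≤ p) (hm : m + 1 < p) (hmp : p < (p - 1 - m) ^ 2)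
    (hs0 : 0 ≤ s) (hs : p ≤ s ^ 2) (h : (p - 1) * s * (s - 1) ≤ m * p + s) : False := by
  obtain ⟨w, hw⟩ : ∃ w, w = Real.sqrt p := ⟨_, rfl⟩
  have hw0 : 0 ≤ w := by rw [hw]; exact Real.sqrt_nonneg _
  have hw2 : w ^ 2 = p := by rw [hw]; exact Real.sq_sqrt (by linarith)
  obtain ⟨t, ht⟩ : ∃ t, t = p - 1 - m := ⟨_, rfl⟩
  rw [← ht] at hmp
  have ht0 : 0 < t := by rw [ht]; linarith
  have hws : w ≤ s := by nlinarith
  have hwt : w < t := by nlinarith
  have hw2' : 2 < w := by nlinarith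
  have h1 : 0 ≤ (s - w) * ((p - 1) * (s + w) - p) := by
    apply mul_nonneg (by linarith)
    nlinarith
  have h2 : (p - 1) * p - p * w ≤ (p - 1) * s ^ 2 - p * s := by nlinarith
  have h3 : (p - 1) * s ^ 2 - p * s ≤ (p - 1 - t) * p := by
    rw [ht]
    nlinarith
  have h4 : p * t ≤ p * w := by nlinarith
  have h5 := le_of_mul_le_mul_left h4 (by linarith)
  linarith

theorem two_ineq {p m q q' s : ℝ} (hp : 5 ≤ p) (hq' : 1 ≤ q') (hq : q = p * q')
    (hm : m + 2 + q' ≤ q) (hs : q ≤ s) (h : (p - 1) * s * (s - 1) ≤ m * (p * q) + s) : False := by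
  have hq5 : 5 ≤ q := by rw [hq]; nlinarith
  have h1 : q * ((p - 1) * (q - 1) - 1) ≤ s * ((p - 1) * (s - 1) - 1) := by
    have h2 : (p - 1) * (q - 1) - 1 ≤ (p - 1) * (s - 1) - 1 := by nlinarith
    have h3 : 0 ≤ (p - 1) * (q - 1) - 1 := by nlinarith
    exact mul_le_mul hs h2 h3 (by linarith)
  have h2 : q * ((p - 1) * (q - 1) - 1) ≤ q * (m * p) := by nlinarith
  have h3 := le_of_mul_le_mul_left h2 (by linarith)
  have h4 : (p - 1) * (q - 1) - 1 = p * (q - q' - 1) := by rw [hq]; ring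
  have h5 : p * (m + 1) ≤ p * (q - q' - 1) := by
    apply mul_le_mul_of_nonneg_left _ (by linarith)
    linarith
  nlinarith

/-- there are no symmetries of order `p` -/
theorem IsSym.no_order_p (h : IsSym ψ u) (hψ : Fid ψ) (hp : p.Prime) (h5 : 5 ≤ p)
    (hm : 1 ≤ m) (hdom : Dom p k m) (hD : D = p ^ k) (hd : d = m * D)
    {g : G} (hg : orderOf g = p) : False := by
  obtain ⟨ρ, hρ⟩ := h.exists_rho
  have hk := (hdom.lt h5).2
  have hdet : ((ρ g).map (red hd)).det = 1 := by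
    have h1 := (red hd).map_det (ρ g)
    rw [Rep.det (isUnit_u u g) (hρ g), map_one] at h1
    exact h1.symm
  have hpow : ((ρ g).map (red hd)) ^ p = 1 := by
    have h3 : (ρ (g ^ p)).map (red hd) = ((ρ g).map (red hd)) ^ p := by
      rw [map_pow]
      exact map_pow (red hd).mapMatrix (ρ g) p
    rw [← h3, ← hg, pow_orderOf_eq_one, map_one]
    exact Matrix.map_one _ (map_zero _) (map_one _)
  obtain ⟨s, hs0, hs2, hs⟩ := h.prime_ineq' hψ hρ hp hg
  have h1 := card_fix_le hd (ρ g)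
  have hdr : (d : ℝ) = m * D := by rw [hd]; push_cast; ring
  have hp5 : (5 : ℝ) ≤ p := by exact_mod_cast h5
  rcases hdom with ⟨hk1, hmp, hmp'⟩ | ⟨hk2, hmp⟩
  · rw [hk1, pow_one] at hD
    subst hD
    have h2 := (card_fix_one hp hdet hpow).trans h1
    have h6 : ((D - 1 - m : ℕ) : ℝ) = (D : ℝ) - 1 - m := by
      rw [Nat.cast_sub (by omega), Nat.cast_sub (by omega), Nat.cast_one]
    refine one_ineq (p := (D : ℝ)) (m := (m : ℝ)) (s := s) hp5 (by exact_mod_cast hmp)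
      (by rw [← h6]; exact_mod_cast hmp') hs0 ?_ ?_
    · rw [hs2]
      exact_mod_cast h2
    · rw [← hdr]
      exact hs
  · have h2 := (card_fix_two hp h5 hk2 hD hdet hpow).trans h1
    have h3 : ((p ^ (k - 1) : ℕ) : ℝ) ≤ s := by
      have h4 : ((p ^ (k - 1) : ℕ) : ℝ) ^ 2 ≤ s ^ 2 := by
        rw [hs2, pow_two]
        exact_mod_cast h2
      exact le_of_sq_le_sq h4 hs0
    have e1 : p ^ (k - 1) = p * p ^ (k - 2) := by
      rw [← pow_succ']; congr 1; omega
    have e2 : p ^ k = p * p ^ (k - 1) := by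
      rw [← pow_succ']; congr 1; omega
    refine two_ineq (p := (p : ℝ)) (m := (m : ℝ)) (q := ((p ^ (k - 1) : ℕ) : ℝ))
      (q' := ((p ^ (k - 2) : ℕ) : ℝ)) (s := s) hp5 ?_ ?_ ?_ h3 ?_
    · exact_mod_cast Nat.one_le_pow _ _ hp.pos
    · exact_mod_cast e1
    · exact_mod_cast hmp
    · have e3 : (d : ℝ) = m * (p * ((p ^ (k - 1) : ℕ) : ℝ)) := by
        rw [hdr, hD, e2]
        push_cast
        ring
      rw [← e3]
      exact hs

theorem IsSym.card_coprime (h : IsSym ψ u) (hψ : Fid ψ) (hp : p.Prime) (h5 : 5 ≤ p)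
    (hm : 1 ≤ m) (hdom : Dom p k m) (hD : D = p ^ k) (hd : d = m * D) :
    ¬ p ∣ Nat.card G := by
  have : Finite G := h.finite hψ
  intro hdvd
  have : Fact p.Prime := ⟨hp⟩
  obtain ⟨g, hg⟩ := exists_prime_orderOf_dvd_card' (G := G) p hdvd
  exact h.no_order_p hψ hp h5 hm hdom hD hd hg

/-- nontrivial symmetries have trace different from two modulo `p` -/
theorem IsSym.trace_unit (h : IsSym ψ u) (hψ : Fid ψ) (hp : p.Prime) (h5 : 5 ≤ p)
    (hm : 1 ≤ m) (hdom : Dom p k m) (hD : D = p ^ k) (hd : d = m * D)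
    {ρ : G →* Matrix (Fin 2) (Fin 2) (ZMod d)} (hρ : ∀ g, Rep (u g) (ρ g))
    {g : G} (hg : g ≠ 1) : IsUnit (((ρ g).map (red hd)).trace - 2) := by
  have : Finite G := h.finite hψ
  obtain ⟨hlt, hk⟩ := hdom.lt h5
  by_contra hcon
  apply hg
  have h1 : ¬ p ∣ orderOf g := fun h2 =>
    (h.card_coprime hψ hp h5 hm hdom hD hd) (h2.trans (orderOf_dvd_natCard g))
  apply h.kernel hψ hρ hd (by rw [hD]; exact hlt)
  have hdet : ((ρ g).map (red hd)).det = 1 := by
    have h1 := (red hd).map_det (ρ g)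
    rw [Rep.det (isUnit_u u g) (hρ g), map_one] at h1
    exact h1.symm
  refine eq_one_of_coprime hp hk hD hdet hcon h1 ?_
  have h3 : (ρ (g ^ orderOf g)).map (red hd) = ((ρ g).map (red hd)) ^ orderOf g := by
    rw [map_pow]
    exact map_pow (red hd).mapMatrix (ρ g) _
  rw [← h3, pow_orderOf_eq_one, map_one]
  exact Matrix.map_one _ (map_zero _) (map_one _)

/-- nontrivial symmetries fix no displacement modulo `p ^ k` -/
theorem IsSym.free (h : IsSym ψ u) (hψ : Fid ψ) (hp : p.Prime) (h5 : 5 ≤ p)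
    (hm : 1 ≤ m) (hdom : Dom p k m) (hD : D = p ^ k) (hd : d = m * D)
    {ρ : G →* Matrix (Fin 2) (Fin 2) (ZMod d)} (hρ : ∀ g, Rep (u g) (ρ g))
    {g : G} (hg : g ≠ 1) {v : Fin 2 → ZMod d} (hv : ρ g *ᵥ v = v) (i : Fin 2) :
    red hd (v i) = 0 := by
  have h1 := h.trace_unit hψ hp h5 hm hdom hD hd hρ hg
  have hdet : ((ρ g).map (red hd)).det = 1 := by
    have h1 := (red hd).map_det (ρ g)
    rw [Rep.det (isUnit_u u g) (hρ g), map_one] at h1
    exact h1.symm
  have h2 : IsUnit ((ρ g).map (red hd) - 1).det := by rw [det_sub_one hdet]; exact h1.neg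
  obtain ⟨w, hw⟩ : ∃ w : Fin 2 → ZMod D, w = fun j => red hd (v j) := ⟨_, rfl⟩
  have hw1 : (ρ g).map (red hd) *ᵥ w = w := by
    funext j
    rw [hw, ← red_mulVec, hv]
  have h3 : ((ρ g).map (red hd) - 1) *ᵥ w = 0 := by
    rw [Matrix.sub_mulVec, Matrix.one_mulVec, hw1, sub_self]
  have h4 : IsUnit ((ρ g).map (red hd) - 1) := (Matrix.isUnit_iff_isUnit_det _).2 h2
  obtain ⟨W, hW⟩ := h4.exists_left_inv
  have h5 : w = 0 := by
    calc w = (W * ((ρ g).map (red hd) - 1)) *ᵥ w := by rw [hW, Matrix.one_mulVec]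
      _ = 0 := by rw [← Matrix.mulVec_mulVec, h3, Matrix.mulVec_zero]
  have h6 := congrFun h5 i
  rw [hw] at h6
  exact h6

end

end Pool.Agent.Run7.h40.SICS
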