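import Mathlib
import Pool.Agent.Run7.h40.SICS.Order

set_option autoImplicit false

/-! # Symmetries of order two exist only if `d + 1` is a square -/

namespace Pool.Agent.Run7.h40.SICS

open Finset Matrix
open R503.SIC (Dm Nrm e Fid ov)
open scoped ComplexConjugate

variable {d : ℕ} [NeZero d]

theorem trace_idem {P : Matrix (ZMod d) (ZMod d) ℂ} (hP : P * P = P) : ∃ r : ℕ, P.trace = r := by
  have h1 : IsIdempotentElem (Matrix.toLin' P) := by
    unfold IsIdempotentElem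
    rw [Module.End.mul_eq_comp, ← Matrix.toLin'_mul, hP]
  exact ⟨_, (Matrix.trace_toLin'_eq P).symm.trans
    (LinearMap.IsIdempotentElem.isProj_range _ h1).trace⟩

/-- sums of signs -/
theorem sum_sign {ι : Type*} (S : Finset ι) (f : ι → ℂ) (x : ℝ)
    (h : ∀ i ∈ S, f i = x ∨ f i = -x) : ∃ M : ℤ, ∑ i ∈ S, f i = M * x := by
  classical
  induction S using Finset.induction_on with
  | empty => exact ⟨0, by simp⟩
  | insert a S ha ih =>
    obtain ⟨M, hM⟩ := ih fun i hi => h i (Finset.mem_insert_of_mem hi)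
    rw [Finset.sum_insert ha, hM]
    rcases h a (Finset.mem_insert_self _ _) with h1 | h1
    · exact ⟨M + 1, by rw [h1]; push_cast; ring⟩
    · exact ⟨M - 1, by rw [h1]; push_cast; ring⟩

variable {ψ : ZMod d → ℂ}

theorem invol_sq (hψ : Fid ψ) {U : Matrix (ZMod d) (ZMod d) ℂ} (hU : Uᴴ = U) (hUU : U * U = 1)
    (hf : U *ᵥ ψ = ψ) {F : Matrix (Fin 2) (Fin 2) (ZMod d)} (hF : Rep U F)
    (hsq : ¬ IsSquare (d + 1)) : (Fix F).card = d ^ 2 := by
  classical
  have hU1 : Uᴴ * U = 1 := by rw [hU, hUU]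
  have hdpos : (0 : ℝ) < d := by exact_mod_cast Nat.pos_of_ne_zero (NeZero.ne d)
  obtain ⟨x, hx⟩ : ∃ x : ℝ, x = 1 / Real.sqrt (d + 1) := ⟨_, rfl⟩
  have hx0 : 0 < x := by rw [hx]; positivity
  have hx2 : x ^ 2 = 1 / ((d : ℝ) + 1) := by
    rw [hx, div_pow, Real.sq_sqrt (by positivity), one_pow]
  obtain ⟨T, hT⟩ : ∃ T : (Fin 2 → ZMod d) → ℂ,
    T = fun v => star ψ ⬝ᵥ ((DD v * U * (DD v)ᴴ) *ᵥ ψ) := ⟨_, rfl⟩
  -- the sum of the `T v`
  have hψ1 : star ψ ⬝ᵥ ψ = 1 := by
    have h2 : star ψ ⬝ᵥ ψ = ((∑ j, ‖ψ j‖ ^ 2 : ℝ) : ℂ) := by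
      rw [dotProduct, Complex.ofReal_sum]
      refine Finset.sum_congr rfl fun i _ => ?_
      exact R503.SIC.conj_mul_self' _
    rw [h2, hψ.1]
    simp
  have hsum : ∑ v, T v = d * U.trace := by
    have h1 := congrArg (fun M => star ψ ⬝ᵥ (M *ᵥ ψ)) (twirl U)
    simp only [Matrix.sum_mulVec, dotProduct_sum] at h1
    rw [Matrix.smul_mulVec, Matrix.one_mulVec, dotProduct_smul, hψ1, smul_eq_mul, mul_one] at h1
    rw [← h1, hT]
  -- fixed displacements
  have hfix : ∀ v ∈ Fix F, T v = 1 := by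
    intro v hv
    rw [mem_Fix] at hv
    obtain ⟨c, hc⟩ := hF v
    rw [hv] at hc
    rw [comm_exact hψ hU1 hf hc, one_smul] at hc
    rw [hT]
    simp only
    rw [← hc, mul_assoc, DD_mul_adj, mul_one, hf, hψ1]
  -- the `T v` are real
  have hreal : ∀ v, conj (T v) = T v := by
    intro v
    rw [hT]
    simp only
    have h1 : (DD v * U * (DD v)ᴴ)ᴴ = DD v * U * (DD v)ᴴ := by
      rw [Matrix.conjTranspose_mul, Matrix.conjTranspose_mul, Matrix.conjTranspose_conjTranspose,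
        hU, mul_assoc]
    have h2 : conj (star ψ ⬝ᵥ ((DD v * U * (DD v)ᴴ) *ᵥ ψ)) =
        star (star ψ ⬝ᵥ ((DD v * U * (DD v)ᴴ) *ᵥ ψ)) := rfl
    rw [h2]
    conv_lhs => rw [← Matrix.star_dotProduct, Matrix.star_mulVec, ← Matrix.dotProduct_mulVec, h1]
  have hnorm : ∀ v, v ∉ Fix F → ‖T v‖ ^ 2 = x ^ 2 := by
    intro v hv
    rw [mem_Fix] at hv
    obtain ⟨c, hc⟩ := hF (-v)
    have hU2 : U * Uᴴ = 1 := by rw [hU, hUU]
    have hc1 : ‖c‖ = 1 := by
      have h1 : (U * DD (-v)) * (U * DD (-v))ᴴ = 1 := by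
        rw [Matrix.conjTranspose_mul, ← mul_assoc, mul_assoc U, DD_mul_adj, mul_one, hU2]
      rw [hc, Matrix.conjTranspose_smul, Matrix.smul_mul, Matrix.mul_smul, smul_smul,
        Matrix.conjTranspose_mul, ← mul_assoc, mul_assoc (DD _), hU2, mul_one, DD_mul_adj] at h1
      have h2 := congrFun (congrFun h1 0) 0
      rw [Matrix.smul_apply, Matrix.one_apply_eq, smul_eq_mul, mul_one] at h2
      have h3 := R503.SIC.conj_mul_self' c
      rw [mul_comm] at h3
      have h4 : c * conj c = 1 := h2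
      rw [h3] at h4
      have h5 : ‖c‖ ^ 2 = 1 := by exact_mod_cast h4
      have h6 := norm_nonneg c
      nlinarith
    have h1 : T v = e (v 0 * v 1) * (c * (star ψ ⬝ᵥ ((DD v * DD (F *ᵥ (-v))) *ᵥ ψ))) := by
      rw [hT]
      simp only
      rw [DD_adj, Matrix.mul_smul, mul_assoc, hc, Matrix.mul_smul, ← mul_assoc, smul_smul,
        Matrix.smul_mulVec, ← Matrix.mulVec_mulVec, hf, dotProduct_smul, smul_eq_mul, mul_assoc]
    rw [h1, norm_mul, norm_mul, hc1, R503.SIC.norm_e, one_mul, one_mul, DD_mul,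
      Matrix.smul_mulVec, dotProduct_smul, smul_eq_mul, norm_mul, R503.SIC.norm_e, one_mul,
      overlap_eq, hx2]
    apply hψ.2
    intro h2
    rw [Prod.mk.injEq] at h2
    apply hv
    have h3 : v + F *ᵥ (-v) = 0 := by
      ext i
      fin_cases i
      · exact h2.1
      · exact h2.2
    rw [Matrix.mulVec_neg, add_neg_eq_zero] at h3
    exact h3.symm
  have hsgn : ∀ v ∈ (univ : Finset (Fin 2 → ZMod d)).filter (fun v => v ∉ Fix F),
      T v = x ∨ T v = -x := by
    intro v hv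
    rw [Finset.mem_filter] at hv
    obtain ⟨y, hy⟩ := Complex.conj_eq_iff_real.1 (hreal v)
    have h1 := hnorm v hv.2
    rw [hy, Complex.norm_real, Real.norm_eq_abs, sq_abs] at h1
    rcases sq_eq_sq_iff_eq_or_eq_neg.1 h1 with h2 | h2
    · left; rw [hy, h2]
    · right; rw [hy, h2]; push_cast; ring
  obtain ⟨M, hM⟩ := sum_sign _ _ _ hsgn
  obtain ⟨r, hr⟩ := trace_idem (P := (1 / 2 : ℂ) • (1 + U)) (by
    rw [Matrix.smul_mul, Matrix.mul_smul, smul_smul]
    have : (1 + U) * (1 + U) = (2 : ℂ) • (1 + U) := by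
      rw [mul_add, add_mul, add_mul, hUU, one_mul, one_mul, mul_one, two_smul]
      abel
    rw [this, smul_smul]
    norm_num)
  obtain ⟨t, ht⟩ : ∃ t : ℤ, U.trace = t := by
    refine ⟨2 * r - d, ?_⟩
    rw [Matrix.trace_smul, Matrix.trace_add, Matrix.trace_one, ZMod.card, smul_eq_mul] at hr
    push_cast
    linear_combination 2 * hr
  have hκ : ((Fix F).card : ℤ) = t ^ 2 := by
    have h1 := trace_sq hψ hU1 hf hF
    rw [ht] at h1
    have h2 : ‖(t : ℂ)‖ ^ 2 = (t : ℝ) ^ 2 := by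
      rw [Complex.norm_intCast, sq_abs]
    rw [h2] at h1
    exact_mod_cast h1.symm
  have htot : (t : ℝ) ^ 2 + M * x = d * t := by
    have h1 : ∑ v, T v = (t : ℂ) ^ 2 + M * x := by
      rw [← Finset.sum_filter_add_sum_filter_not univ (fun v => v ∈ Fix F) T, hM]
      congr 1
      rw [Finset.sum_congr rfl (g := fun _ => (1 : ℂ)) (fun v hv => hfix v (by
        rw [Finset.mem_filter] at hv; exact hv.2)), Finset.sum_const, nsmul_eq_mul, mul_one]
      have h2 : (univ.filter fun v => v ∈ Fix F) = Fix F := by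
        ext v
        simp
      rw [h2]
      exact_mod_cast hκ
    rw [hsum, ht] at h1
    exact_mod_cast h1.symm
  by_cases hM0 : M = 0
  · rw [hM0, Int.cast_zero, zero_mul, add_zero] at htot
    have h1 : (t : ℤ) ^ 2 = d * t := by exact_mod_cast htot
    have h2 : t ≠ 0 := by
      rintro rfl
      have h3 : 0 < (Fix F).card := Finset.card_pos.2 ⟨0, mem_Fix.2 (Matrix.mulVec_zero _)⟩
      have h4 : ((Fix F).card : ℤ) = 0 := by rw [hκ]; norm_num
      omega
    have h3 : t = d := by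
      apply mul_right_cancel₀ h2
      rw [← h1]; ring
    rw [h3] at hκ
    exact_mod_cast hκ
  · exfalso
    have h1 : Real.sqrt (d + 1) * (d * t - t ^ 2) = M := by
      have h2 : M * x = d * t - t ^ 2 := by linarith
      rw [← h2, hx]
      field_simp
    have h2 : (d * t - t ^ 2 : ℝ) ≠ 0 := by
      intro h3
      rw [h3, mul_zero] at h1
      exact hM0 (by exact_mod_cast h1.symm)
    have h3 : Real.sqrt ((d + 1 : ℕ) : ℝ) = (M : ℝ) / (d * t - t ^ 2) := by
      rw [eq_div_iff h2, ← h1]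
      push_cast
      ring
    have h4 : Irrational (Real.sqrt ((d + 1 : ℕ) : ℝ)) := irrational_sqrt_natCast_iff.2 hsq
    apply h4
    refine ⟨(M : ℚ) / (d * t - t ^ 2), ?_⟩
    rw [h3]
    push_cast
    ring

section

variable {G : Type*} [Group G] {u : G →* Matrix (ZMod d) (ZMod d) ℂ}

/-- there are no symmetries of order two unless `d + 1` is a square -/
theorem IsSym.no_order_two (h : IsSym ψ u) (hψ : Fid ψ) (hsq : ¬ IsSquare (d + 1))
    {g : G} (hg : orderOf g = 2) : False := by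
  obtain ⟨ρ, hρ⟩ := h.exists_rho
  have h1 : g * g = 1 := by rw [← pow_two, ← hg, pow_orderOf_eq_one]
  have h2 : g ≠ 1 := by
    rintro rfl
    rw [orderOf_one] at hg
    norm_num at hg
  have h3 := h.card_lt hψ hρ h2
  have h4 := invol_sq hψ (U := u g) (by rw [h.adj, inv_eq_of_mul_eq_one_left h1])
    (by rw [← map_mul, h1, map_one]) (h.fix g) (hρ g) hsq
  omega

theorem IsSym.odd (h : IsSym ψ u) (hψ : Fid ψ) (hsq : ¬ IsSquare (d + 1)) :
    Odd (Nat.card G) := by
  have : Finite G := h.finite hψ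
  by_contra hcon
  rw [Nat.not_odd_iff_even] at hcon
  have : Fact (Nat.Prime 2) := ⟨Nat.prime_two⟩
  obtain ⟨g, hg⟩ := exists_prime_orderOf_dvd_card' (G := G) 2 hcon.two_dvd
  exact h.no_order_two hψ hsq hg

end

end Pool.Agent.Run7.h40.SICS
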