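import Mathlib
import Pool.Agent.Run7.h40.SICS.Invol
import Pool.Agent.Run7.h40.SICS.Cyclic

set_option autoImplicit false

/-! # Clifford symmetry groups in dimensions with a dominant prime power factor -/

namespace Pool.Agent.Run7.h40.SICS

open Finset Matrix
open R503.SIC (Dm Nrm e Fid ov)
open scoped ComplexConjugate MatrixGroups

variable {d : ℕ} [NeZero d] {ψ : ZMod d → ℂ} {G : Type*} [Group G]
  {u : G →* Matrix (ZMod d) (ZMod d) ℂ} {p k m : ℕ}

theorem dom_of_lt (h5 : 5 ≤ p) (hk : 1 ≤ k)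
    (h : (m + 1 < p ∧ p < (p - 1 - m) ^ 2) ∨ (2 ≤ k ∧ m + 2 + p ^ (k - 2) ≤ p ^ (k - 1))) :
    Dom p k m := by
  rcases h with h | h
  · rcases Nat.lt_or_ge 1 k with hk2 | hk2
    · refine Or.inr ⟨hk2, ?_⟩
      have e1 : p ^ (k - 1) = p ^ (k - 2) * p := by
        rw [← pow_succ]; congr 1; omega
      have h1 : 1 ≤ p ^ (k - 2) := Nat.one_le_pow _ _ (by omega)
      obtain ⟨q, hq⟩ : ∃ q, q = p ^ (k - 2) := ⟨_, rfl⟩
      rw [e1, ← hq]
      rw [← hq] at h1
      have h2 : m + 2 + 1 ≤ p := by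
        by_contra h4
        have h5 : p - 1 - m = 1 := by omega
        rw [h5] at h
        omega
      have h3 : q * (m + 2 + 1) ≤ q * p := Nat.mul_le_mul_left q h2
      have h4 : m + 2 ≤ q * (m + 2) := Nat.le_mul_of_pos_left _ h1
      have h5 : q * (m + 2 + 1) = q * (m + 2) + q := by ring
      omega
    · exact Or.inl ⟨by omega, h⟩
  · exact Or.inr h

omit [NeZero d] in
theorem not_square (hp : p.Prime) (h5 : 5 ≤ p) (hk : 1 ≤ k) (hd : d = 1 * p ^ k) :
    ¬ IsSquare (d + 1) := by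
  rintro ⟨t, ht⟩
  have h3 := R503.SIC.primePow (t := t) (d := d) (by rw [pow_two, ht]) (by
    rw [hd, one_mul]
    exact hp.isPrimePow.pow (by omega))
  have hd5 : 5 ≤ d := by
    rw [hd, one_mul]
    calc 5 ≤ p := h5
      _ = p ^ 1 := (pow_one p).symm
      _ ≤ p ^ k := Nat.pow_le_pow_right hp.pos hk
  rcases h3 with h3 | h3
  · omega
  · have h6 : Odd d := by
      rw [hd, one_mul]
      exact (hp.odd_of_ne_two (by omega)).pow
    rw [h3] at h6
    exact absurd h6 (by decide)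

/-- the representation modulo `p` -/
theorem IsSym.exists_mod (h : IsSym ψ u) (hψ : Fid ψ) (hp : p.Prime) (h5 : 5 ≤ p)
    (hm : 1 ≤ m) (hdom : Dom p k m) (hd : d = m * p ^ k) :
    ∃ f : G →* Matrix (Fin 2) (Fin 2) (ZMod p), (∀ g, (f g).det = 1) ∧
      ∀ g, g ≠ 1 → (f g).trace ≠ 2 := by
  have : Fact p.Prime := ⟨hp⟩
  obtain ⟨-, hk⟩ := hdom.lt h5
  have : NeZero (p ^ k) := ⟨(pow_pos hp.pos k).ne'⟩
  obtain ⟨ρ, hρ⟩ := h.exists_rho
  let r2 : ZMod (p ^ k) →+* ZMod p := ZMod.castHom (dvd_pow_self p (by omega)) (ZMod p)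
  let r : ZMod d →+* ZMod p := r2.comp (red (D := p ^ k) hd)
  refine ⟨(RingHom.toMonoidHom (r.mapMatrix (m := Fin 2))).comp ρ, ?_, ?_⟩
  · intro g
    have h1 := r.map_det (ρ g)
    rw [Rep.det (isUnit_u u g) (hρ g), map_one] at h1
    exact h1.symm
  · intro g hg htr
    have h1 := h.trace_unit hψ hp h5 hm hdom rfl hd hρ hg
    have h2 := h1.map r2
    have h3 : r2 (((ρ g).map (red hd)).trace - 2) = 0 := by
      rw [map_sub, sub_eq_zero]
      have h4 : r2 ((ρ g).map (red hd)).trace = (r.mapMatrix (ρ g)).trace := by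
        rw [Matrix.trace_fin_two, Matrix.trace_fin_two, map_add]
        rfl
      rw [h4, map_ofNat]
      exact htr
    rw [h3] at h2
    exact not_isUnit_zero h2

theorem IsSym.exists_sl (h : IsSym ψ u) (hψ : Fid ψ) (hp : p.Prime) (h5 : 5 ≤ p)
    (hm : 1 ≤ m) (hdom : Dom p k m) (hd : d = m * p ^ k) :
    ∃ f : G →* SL(2, ZMod p), Function.Injective f := by
  obtain ⟨f, hf1, hf2⟩ := h.exists_mod hψ hp h5 hm hdom hd
  refine ⟨⟨⟨fun g => ⟨f g, hf1 g⟩, ?_⟩, ?_⟩, ?_⟩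
  · ext i j
    change f 1 i j = _
    rw [map_one]
    rfl
  · intro g g'
    ext i j
    change f (g * g') i j = _
    rw [map_mul]
    rfl
  · rw [injective_iff_map_eq_one]
    intro g hg
    by_contra hne
    apply hf2 g hne
    have h1 : f g = 1 := congrArg Subtype.val hg
    rw [h1, Matrix.trace_one, Fintype.card_fin]
    norm_num

/-- **Main statement.** -/
theorem IsSym.main (h : IsSym ψ u) (hψ : Fid ψ) (hp : p.Prime) (h5 : 5 ≤ p)
    (hm : 1 ≤ m) (hdom : Dom p k m) (hd : d = m * p ^ k) (hsq : ¬ IsSquare (d + 1)) :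
    IsCyclic G ∧ Odd (Nat.card G) ∧ (Nat.card G ∣ p - 1 ∨ Nat.card G ∣ p + 1) := by
  have : Fact p.Prime := ⟨hp⟩
  have : Finite G := h.finite hψ
  have : Fintype G := Fintype.ofFinite G
  have : NeZero (p ^ k) := ⟨(pow_pos hp.pos k).ne'⟩
  obtain ⟨f, hf1, hf2⟩ := h.exists_mod hψ hp h5 hm hdom hd
  have hodd := h.odd hψ hsq
  obtain ⟨h1, h2⟩ := Cyc.main (by omega) hf1 hf2 hodd (h.card_coprime hψ hp h5 hm hdom rfl hd)
  exact ⟨h1, hodd, h2⟩

end Pool.Agent.Run7.h40.SICS
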