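import Mathlib
import Pool.Agent.Run7.h40.SICS.Final

set_option autoImplicit false

/-! # Symmetries in dimensions with a dominant power of two or three -/

namespace Pool.Agent.Run7.h40.SICS

open Finset Matrix
open R503.SIC (Dm Nrm e Fid ov)
open scoped ComplexConjugate MatrixGroups

theorem ch {R : Type*} [CommRing R] {F : Matrix (Fin 2) (Fin 2) R} (h : F.det = 1) :
    F * F = F.trace • F - 1 := by
  rw [Matrix.det_fin_two] at h
  ext i j
  fin_cases i <;> fin_cases j <;>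
    simp [Matrix.mul_apply, Fin.sum_univ_two, Matrix.trace_fin_two, Matrix.one_apply] <;>
    first | (ring1; done) | linear_combination -h

theorem cube {R : Type*} [CommRing R] {F : Matrix (Fin 2) (Fin 2) R} (h : F.det = 1)
    (h3 : F ^ 3 = 1) : (F.trace + 1) • ((F.trace - 1) • F - 1) = 0 := by
  obtain ⟨τ, hτ⟩ : ∃ τ, τ = F.trace := ⟨_, rfl⟩
  have h1 := ch h
  rw [← hτ] at h1 ⊢
  have h2 : F ^ 3 = (τ * τ - 1) • F - τ • 1 := by
    rw [pow_succ, pow_two, h1, sub_mul, Matrix.smul_mul, h1, one_mul, smul_sub, smul_smul,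
      sub_smul, one_smul]
    abel
  rw [h3] at h2
  have h4 : (τ + 1) • ((τ - 1) • F - 1) = ((τ * τ - 1) • F - τ • 1) - 1 := by
    ext i j
    simp only [Matrix.smul_apply, Matrix.sub_apply, smul_eq_mul]
    ring
  rw [h4, ← h2, sub_self]

section

variable {k D : ℕ} [NeZero D]

/-- elements of order three modulo powers of three -/
theorem three_alg (hk : 1 ≤ k) (hD : D = 3 ^ k) {F : Matrix (Fin 2) (Fin 2) (ZMod D)}
    (h : F.det = 1) (h3 : F ^ 3 = 1) :
    3 * (F.trace + 1) = 0 ∨ ∀ i j, 3 * (F - 1) i j = 0 := by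
  have hn3 : IsNilpotent (3 : ZMod D) := by
    have := nilp (p := 3) hD
    exact_mod_cast this
  obtain ⟨s, hs⟩ := unit_or Nat.prime_three hk hD
    (not_unit_of_pow Nat.prime_three hk hD h h3).2
  obtain ⟨τ, hτ⟩ : ∃ τ, τ = F.trace := ⟨_, rfl⟩
  have hc := cube h h3
  rw [← hτ] at hs hc ⊢
  have hτs : τ = 2 + 3 * s := by
    push_cast at hs
    linear_combination hs
  have hu1 : IsUnit (τ - 1) := by
    have h1 : IsNilpotent (3 * s) := Commute.isNilpotent_mul_right (Commute.all _ _) hn3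
    have h2 : τ - 1 = 1 + 3 * s := by rw [hτs]; ring
    rw [h2]
    exact h1.isUnit_one_add
  have h20 : IsUnit (2 : ZMod D) := by
    have := isUnit_natCast Nat.prime_three hk hD (n := 2) (by norm_num)
    exact_mod_cast this
  have hu : IsUnit τ := by
    have h1 : IsNilpotent (3 * s) := Commute.isNilpotent_mul_right (Commute.all _ _) hn3
    rw [hτs, add_comm]
    exact h1.isUnit_add_right_of_commute h20 (Commute.all _ _)
  have e00 := congrFun (congrFun hc 0) 0
  have e01 := congrFun (congrFun hc 0) 1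
  have e10 := congrFun (congrFun hc 1) 0
  have e11 := congrFun (congrFun hc 1) 1
  simp only [Matrix.smul_apply, Matrix.sub_apply, smul_eq_mul, Matrix.one_apply, Matrix.zero_apply,
    if_true, Fin.isValue, zero_ne_one, one_ne_zero, if_false, sub_zero] at e00 e01 e10 e11
  have hdet := h
  rw [Matrix.det_fin_two] at hdet
  have k1 : (τ + 1) * (τ - 2) = 0 := by
    have h1 : τ * ((τ + 1) * (τ - 2)) = 0 := by
      linear_combination (-(τ + 1) * (τ - 1) ^ 2) * hdet + ((τ - 1) * F 1 1) * e00 + e11 -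
        ((τ - 1) * F 1 0) * e01
    exact (hu.mul_right_eq_zero).1 h1
  have ht : τ - 2 = 3 * s := by rw [hτs]; ring
  by_cases hz : IsUnit (1 + s)
  · right
    have k2 : 9 * s = 0 := by
      have h1 : (1 + s) * (9 * s) = 0 := by
        rw [ht, hτs] at k1
        linear_combination k1
      exact (hz.mul_right_eq_zero).1 h1
    have key : ∀ x y : ZMod D, (τ + 1) * ((τ - 1) * x - y) = 0 → 3 * (x - y) = 0 := by
      intro x y hxy
      have h1 : (1 + s) * (3 * ((τ - 1) * x - y)) = 0 := by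
        rw [hτs] at hxy ⊢
        linear_combination hxy
      have h2 := (hz.mul_right_eq_zero).1 h1
      rw [hτs] at h2
      linear_combination h2 - x * k2
    intro i j
    fin_cases i <;> fin_cases j
    · simpa using key _ _ e00
    · simpa using key (F 0 1) 0 (by rw [sub_zero]; exact e01)
    · simpa using key (F 1 0) 0 (by rw [sub_zero]; exact e10)
    · simpa using key _ _ e11
  · left
    obtain ⟨z, hz'⟩ := unit_or Nat.prime_three hk hD hz
    push_cast at hz'
    have k2 : (3 * z - 1) * (27 * z) = 0 := by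
      have h1 : s = 3 * z - 1 := by linear_combination hz'
      rw [ht, hτs, h1] at k1
      linear_combination k1
    have k3 : IsUnit (3 * z - 1) := by
      have h1 : IsNilpotent (3 * z) := Commute.isNilpotent_mul_right (Commute.all _ _) hn3
      exact h1.isUnit_sub_one
    have k4 := (k3.mul_right_eq_zero).1 k2
    have h1 : s = 3 * z - 1 := by linear_combination hz'
    rw [hτs, h1]
    linear_combination k4

/-- many fixed vectors -/
theorem card_fix_kill {p : ℕ} (hp : p.Prime) (hk : 1 ≤ k) (hD : D = p ^ k)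
    {F : Matrix (Fin 2) (Fin 2) (ZMod D)} (h1 : ∀ i j, (p : ZMod D) * (F - 1) i j = 0) :
    p ^ (k - 1) * p ^ (k - 1) ≤ (univ.filter fun v : Fin 2 → ZMod D => F.mulVec v = v).card := by
  have h2 : ∀ w : Fin 2 → ZMod D, F.mulVec ((p : ZMod D) • w) = (p : ZMod D) • w := by
    intro w
    have h3 : (F - 1).mulVec ((p : ZMod D) • w) = 0 := by
      rw [Matrix.mulVec_smul]
      funext i
      rw [Pi.smul_apply, Matrix.mulVec, dotProduct, smul_eq_mul, Finset.mul_sum, Pi.zero_apply]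
      apply Finset.sum_eq_zero
      intro j _
      rw [← mul_assoc, h1, zero_mul]
    rw [Matrix.sub_mulVec, Matrix.one_mulVec] at h3
    exact sub_eq_zero.1 h3
  have h3 : p ^ (k - 1) * p ^ (k - 1) ≤
      (univ : Finset (Fin (p ^ (k - 1)) × Fin (p ^ (k - 1)))).card := by
    rw [Finset.card_univ, Fintype.card_prod, Fintype.card_fin]
  refine h3.trans ?_
  apply Finset.card_le_card_of_injOn
    (fun x => (p : ZMod D) • ![((x.1 : ℕ) : ZMod D), ((x.2 : ℕ) : ZMod D)])
  · intro x _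
    simp only [Finset.coe_filter, Finset.mem_univ, true_and, Set.mem_ofPred_eq]
    exact h2 _
  · intro x _ y _ hxy
    have h4 : ∀ a b : Fin (p ^ (k - 1)), (p : ZMod D) * ((a : ℕ) : ZMod D) =
        (p : ZMod D) * ((b : ℕ) : ZMod D) → a = b := by
      intro a b hab
      rw [← Nat.cast_mul, ← Nat.cast_mul, ZMod.natCast_eq_natCast_iff, Nat.ModEq] at hab
      have hlt : ∀ c : Fin (p ^ (k - 1)), p * (c : ℕ) < D := by
        intro c
        have : D = p * p ^ (k - 1) := by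
          rw [hD, ← pow_succ']; congr 1; omega
        rw [this]
        exact Nat.mul_lt_mul_of_pos_left c.2 hp.pos
      rw [Nat.mod_eq_of_lt (hlt a), Nat.mod_eq_of_lt (hlt b)] at hab
      exact Fin.ext (Nat.eq_of_mul_eq_mul_left hp.pos hab)
    have h5 := congrFun hxy 0
    have h6 := congrFun hxy 1
    simp only [Pi.smul_apply, smul_eq_mul, Matrix.cons_val_zero, Matrix.cons_val_one] at h5 h6
    exact Prod.ext (h4 _ _ h5) (h4 _ _ h6)

end

variable {d : ℕ} [NeZero d] {ψ : ZMod d → ℂ} {G : Type*} [Group G]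
  {u : G →* Matrix (ZMod d) (ZMod d) ℂ} {k m D : ℕ} [NeZero D]

theorem det_map {ρ : G →* Matrix (Fin 2) (Fin 2) (ZMod d)} (hρ : ∀ g, Rep (u g) (ρ g))
    (hd : d = m * D) (g : G) : ((ρ g).map (red hd)).det = 1 := by
  have h1 := (red hd).map_det (ρ g)
  rw [Rep.det (isUnit_u u g) (hρ g), map_one] at h1
  exact h1.symm

omit [NeZero d] in
theorem pow_map {ρ : G →* Matrix (Fin 2) (Fin 2) (ZMod d)}
    (hd : d = m * D) (g : G) (n : ℕ) :
    (ρ (g ^ n)).map (red hd) = ((ρ g).map (red hd)) ^ n := by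
  rw [map_pow]
  exact map_pow (red hd).mapMatrix (ρ g) n

theorem three_ineq {m q q' s : ℝ} (hq' : 1 ≤ q') (hq : q = 3 * q')
    (hm : m + 2 ≤ 2 * q') (hs : q ≤ s) (h : 2 * s * (s - 1) ≤ m * (3 * q) + s) : False := by
  have h1 : q * (2 * q - 3) ≤ s * (2 * s - 3) :=
    mul_le_mul hs (by linarith) (by linarith) (by linarith)
  have h2 : q * (2 * q - 3) ≤ q * (3 * m) := by nlinarith
  have h3 := le_of_mul_le_mul_left h2 (by linarith)
  linarith

/-- symmetries of order three are of Zauner type on the three-part -/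
theorem IsSym.three_trace (h : IsSym ψ u) (hψ : Fid ψ) (hk : 3 ≤ k) (hD : D = 3 ^ k)
    (hd : d = m * D) (hm : m + 2 ≤ 2 * 3 ^ (k - 2))
    {ρ : G →* Matrix (Fin 2) (Fin 2) (ZMod d)} (hρ : ∀ g, Rep (u g) (ρ g)) {g : G}
    (hg : orderOf g = 3) : 3 * (((ρ g).map (red hd)).trace + 1) = 0 := by
  have hpow : ((ρ g).map (red hd)) ^ 3 = 1 := by
    rw [← pow_map hd g 3, ← hg, pow_orderOf_eq_one, map_one]
    exact Matrix.map_one _ (map_zero _) (map_one _)
  rcases three_alg (by omega) hD (det_map hρ hd g) hpow with h1 | h1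
  · exact h1
  exfalso
  obtain ⟨s, hs0, hs2, hs⟩ := h.prime_ineq' hψ hρ Nat.prime_three hg
  have h2 := (card_fix_kill Nat.prime_three (by omega) hD (F := (ρ g).map (red hd))
    (by exact_mod_cast h1)).trans (card_fix_le hd (ρ g))
  have h3 : ((3 ^ (k - 1) : ℕ) : ℝ) ≤ s := by
    have h4 : ((3 ^ (k - 1) : ℕ) : ℝ) ^ 2 ≤ s ^ 2 := by
      rw [hs2, pow_two]
      exact_mod_cast h2
    exact le_of_sq_le_sq h4 hs0
  have e1 : 3 ^ (k - 1) = 3 * 3 ^ (k - 2) := by
    rw [← pow_succ']; congr 1; omega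
  have e2 : 3 ^ k = 3 * 3 ^ (k - 1) := by
    rw [← pow_succ']; congr 1; omega
  refine three_ineq (m := (m : ℝ)) (q := ((3 ^ (k - 1) : ℕ) : ℝ))
    (q' := ((3 ^ (k - 2) : ℕ) : ℝ)) (s := s) ?_ ?_ ?_ h3 ?_
  · exact_mod_cast Nat.one_le_pow _ _ (by norm_num)
  · exact_mod_cast e1
  · exact_mod_cast hm
  · have e3 : (d : ℝ) = m * (3 * ((3 ^ (k - 1) : ℕ) : ℝ)) := by
      rw [hd, hD, e2]
      push_cast
      ring
    rw [← e3]
    have e4 : ((3 : ℕ) : ℝ) - 1 = 2 := by norm_num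
    rw [e4] at hs
    exact hs

/-- an element of a group with a nontrivial power of prime order -/
theorem exists_prime_pow [Finite G] {g : G} (hg : g ≠ 1) :
    ∃ r n : ℕ, r.Prime ∧ orderOf (g ^ n) = r := by
  have h1 : orderOf g ≠ 1 := fun h2 => hg (orderOf_eq_one_iff.1 h2)
  obtain ⟨r, hr, n, hn⟩ := Nat.exists_prime_and_dvd h1
  have hpos : 0 < orderOf g := orderOf_pos g
  have hn0 : n ≠ 0 := by
    rintro rfl
    rw [mul_zero] at hn
    omega
  exact ⟨r, n, hr, by
    rw [orderOf_pow' g hn0, hn, Nat.gcd_mul_left_left, Nat.mul_div_cancel _ (Nat.pos_of_ne_zero hn0)]⟩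

/-- reduction modulo the prime -/
def redp {q k : ℕ} (hk : 1 ≤ k) : ZMod (q ^ k) →+* ZMod q :=
  ZMod.castHom (dvd_pow_self q (by omega)) (ZMod q)

theorem redp_zero {q k : ℕ} (hq : q.Prime) (hk : 1 ≤ k) {x : ZMod (q ^ k)}
    (hx : redp hk x = 0) : ∃ y, x = q * y := by
  have : NeZero (q ^ k) := ⟨(pow_pos hq.pos k).ne'⟩
  have : Fact q.Prime := ⟨hq⟩
  refine unit_or hq hk rfl fun hu => ?_
  have := hu.map (redp hk)
  rw [hx] at this
  exact not_isUnit_zero this

/-- elements which are trivial modulo `q` -/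
theorem IsSym.mod_inj {q k : ℕ} (h : IsSym ψ u) (hψ : Fid ψ) (hq : q.Prime) (hk : 1 ≤ k)
    (hd : d = m * q ^ k) [NeZero (q ^ k)] (hm : m + 2 < q ^ k)
    {ρ : G →* Matrix (Fin 2) (Fin 2) (ZMod d)} (hρ : ∀ g, Rep (u g) (ρ g))
    (hqq : ∀ g, orderOf g = q → ((ρ g).map (red hd)).map (redp hk) ≠ 1)
    {g : G} (hg : ((ρ g).map (red hd)).map (redp hk) = 1) : g = 1 := by
  have : Finite G := h.finite hψ
  by_contra hne
  obtain ⟨r, n, hr, hn⟩ := exists_prime_pow hne
  have hpow : ((ρ (g ^ n)).map (red hd)).map (redp hk) = 1 := by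
    rw [pow_map hd g n]
    have h1 : (((ρ g).map (red hd)) ^ n).map (redp hk) =
        (((ρ g).map (red hd)).map (redp hk)) ^ n :=
      map_pow (redp hk).mapMatrix ((ρ g).map (red hd)) n
    rw [h1, hg, one_pow]
  by_cases hrq : r = q
  · exact hqq _ (hn.trans hrq) hpow
  · have h1 : ¬ q ∣ r := fun h2 => hrq ((Nat.prime_dvd_prime_iff_eq hq hr).1 h2).symm
    have h2 : ¬ IsUnit (((ρ (g ^ n)).map (red hd)).trace - 2) := by
      intro hu
      have hu2 := hu.map (redp hk)
      have h3 : redp hk (((ρ (g ^ n)).map (red hd)).trace) = 2 := by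
        have h4 : redp hk (((ρ (g ^ n)).map (red hd)).trace) =
            (((ρ (g ^ n)).map (red hd)).map (redp hk)).trace := by
          rw [Matrix.trace_fin_two, Matrix.trace_fin_two, map_add]
          rfl
        rw [h4, hpow, Matrix.trace_one, Fintype.card_fin]
        norm_num
      rw [map_sub, h3, map_ofNat, sub_self] at hu2
      have : Fact q.Prime := ⟨hq⟩
      exact not_isUnit_zero hu2
    have h3 := eq_one_of_coprime hq hk rfl (det_map hρ hd (g ^ n)) h2 h1 (by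
      rw [← pow_map hd (g ^ n) r, ← hn, pow_orderOf_eq_one, map_one]
      exact Matrix.map_one _ (map_zero _) (map_one _))
    have h4 := h.kernel hψ hρ hd hm h3
    rw [h4, orderOf_one] at hn
    exact hr.one_lt.ne hn

theorem IsSym.three_ne (h : IsSym ψ u) (hψ : Fid ψ) {k : ℕ} (hk : 3 ≤ k) (hk1 : 1 ≤ k)
    (hd : d = m * 3 ^ k) (hm : m + 2 ≤ 2 * 3 ^ (k - 2))
    {ρ : G →* Matrix (Fin 2) (Fin 2) (ZMod d)} (hρ : ∀ g, Rep (u g) (ρ g)) {g : G}
    (hg : orderOf g = 3) : ((ρ g).map (red hd)).map (redp hk1) ≠ 1 := by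
  intro h1
  have ht := h.three_trace hψ hk rfl hd hm hρ hg
  have hdet := det_map hρ hd g
  obtain ⟨F, hF⟩ : ∃ F, F = (ρ g).map (red hd) := ⟨_, rfl⟩
  rw [← hF] at h1 ht hdet
  have key : ∀ i j, ∃ y : ZMod (3 ^ k), F i j - (1 : Matrix (Fin 2) (Fin 2) (ZMod (3 ^ k))) i j =
      3 * y := by
    intro i j
    have h2 : redp hk1 (F i j - (1 : Matrix (Fin 2) (Fin 2) (ZMod (3 ^ k))) i j) = 0 := by
      have h3 := congrFun (congrFun h1 i) j
      rw [Matrix.map_apply] at h3
      rw [map_sub, h3]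
      by_cases hij : i = j
      · rw [hij, Matrix.one_apply_eq, Matrix.one_apply_eq, map_one, sub_self]
      · rw [Matrix.one_apply_ne hij, Matrix.one_apply_ne hij, map_zero, sub_self]
    obtain ⟨y, hy⟩ := redp_zero Nat.prime_three hk1 h2
    exact ⟨y, by exact_mod_cast hy⟩
  obtain ⟨a, ha⟩ := key 0 0
  obtain ⟨b, hb⟩ := key 0 1
  obtain ⟨c, hc⟩ := key 1 0
  obtain ⟨x, hx⟩ := key 1 1
  simp only [Matrix.one_apply, if_true, Fin.isValue, zero_ne_one, one_ne_zero, if_false,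
    sub_zero] at ha hb hc hx
  rw [Matrix.det_fin_two] at hdet
  rw [Matrix.trace_fin_two] at ht
  have ha' : F 0 0 = 1 + 3 * a := by linear_combination ha
  have hx' : F 1 1 = 1 + 3 * x := by linear_combination hx
  rw [ha', hb, hc, hx'] at hdet
  rw [ha', hx'] at ht
  have hn3 : IsNilpotent (3 : ZMod (3 ^ k)) := by
    have := nilp (p := 3) (d := 3 ^ k) rfl
    exact_mod_cast this
  have hu : IsUnit (1 - 3 * (a * x - b * c)) := by
    have h2 : IsNilpotent (3 * (a * x - b * c)) :=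
      Commute.isNilpotent_mul_right (Commute.all _ _) hn3
    exact h2.isUnit_one_sub
  have h9 : (1 - 3 * (a * x - b * c)) * (9 : ZMod (3 ^ k)) = 0 := by
    linear_combination ht - 3 * hdet
  have h9' : (9 : ZMod (3 ^ k)) = 0 := (hu.mul_right_eq_zero).1 h9
  have h10 : ((9 : ℕ) : ZMod (3 ^ k)) = 0 := by exact_mod_cast h9'
  rw [ZMod.natCast_eq_zero_iff] at h10
  have h11 := Nat.le_of_dvd (by norm_num) h10
  have h12 : 3 ^ 3 ≤ 3 ^ k := Nat.pow_le_pow_right (by norm_num) hk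
  omega

theorem card_sl2 : Nat.card SL(2, ZMod 2) = 6 := by
  rw [Nat.card_eq_fintype_card]
  decide +kernel

theorem card_sl3 : Nat.card SL(2, ZMod 3) = 24 := by
  rw [Nat.card_eq_fintype_card]
  decide +kernel

/-- injection into `SL (2, ℤ/q)` -/
theorem IsSym.sl_inj {q k : ℕ} [NeZero (q ^ k)] (hd : d = m * q ^ k) (hk : 1 ≤ k)
    {ρ : G →* Matrix (Fin 2) (Fin 2) (ZMod d)} (hρ : ∀ g, Rep (u g) (ρ g))
    (hinj : ∀ g, ((ρ g).map (red hd)).map (redp hk) = 1 → g = 1) :
    ∃ f : G →* SL(2, ZMod q), Function.Injective f := by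
  let f : G →* Matrix (Fin 2) (Fin 2) (ZMod q) :=
    (RingHom.toMonoidHom (((redp hk).comp (red hd)).mapMatrix (m := Fin 2))).comp ρ
  have hf1 : ∀ g, (f g).det = 1 := by
    intro g
    have h1 := ((redp hk).comp (red hd)).map_det (ρ g)
    rw [Rep.det (isUnit_u u g) (hρ g), map_one] at h1
    exact h1.symm
  refine ⟨⟨⟨fun g => ⟨f g, hf1 g⟩, ?_⟩, ?_⟩, ?_⟩
  · ext i j
    change f 1 i j = _
    rw [map_one]
    rfl
  · intro g g'
    ext i j
    change f (g * g') i j = _
    rw [map_mul]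
    rfl
  · rw [injective_iff_map_eq_one]
    intro g hg
    apply hinj
    exact congrArg Subtype.val hg

/-- **Main statement for two and three** -/
theorem IsSym.main23 (h : IsSym ψ u) (hψ : Fid ψ) {q k : ℕ} [NeZero (q ^ k)]
    (hq : (q = 2 ∧ 1 ≤ k ∧ m + 2 < 2 ^ k) ∨ (q = 3 ∧ 3 ≤ k ∧ m + 2 ≤ 2 * 3 ^ (k - 2)))
    (hd : d = m * q ^ k) (hsq : ¬ IsSquare (d + 1)) :
    Nat.card G = 1 ∨ Nat.card G = 3 := by
  have : Finite G := h.finite hψ
  obtain ⟨ρ, hρ⟩ := h.exists_rho
  have hodd := h.odd hψ hsq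
  rcases hq with ⟨rfl, hk, hm⟩ | ⟨rfl, hk, hm⟩
  · obtain ⟨f, hf⟩ := IsSym.sl_inj hd hk hρ (fun g hg => h.mod_inj hψ Nat.prime_two hk hd hm hρ
      (fun g' hg' => (h.no_order_two hψ hsq hg').elim) hg)
    have h1 := Subgroup.card_dvd_of_injective f hf
    rw [card_sl2] at h1
    obtain ⟨n, hn⟩ : ∃ n, n = Nat.card G := ⟨_, rfl⟩
    rw [← hn] at h1 hodd ⊢
    have h2 := Nat.le_of_dvd (by norm_num) h1
    interval_cases n <;> revert h1 hodd <;> decide
  · have hk1 : 1 ≤ k := by omega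
    have hm2 : m + 2 < 3 ^ k := by
      have e1 : 3 ^ k = 9 * 3 ^ (k - 2) := by
        rw [show (9 : ℕ) = 3 ^ 2 by norm_num, ← pow_add]; congr 1; omega
      have h1 : 1 ≤ 3 ^ (k - 2) := Nat.one_le_pow _ _ (by norm_num)
      omega
    obtain ⟨f, hf⟩ := IsSym.sl_inj hd hk1 hρ (fun g hg => h.mod_inj hψ Nat.prime_three hk1 hd hm2 hρ
      (fun g' hg' => h.three_ne hψ hk hk1 hd hm hρ hg') hg)
    have h1 := Subgroup.card_dvd_of_injective f hf
    rw [card_sl3] at h1
    obtain ⟨n, hn⟩ : ∃ n, n = Nat.card G := ⟨_, rfl⟩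
    rw [← hn] at h1 hodd ⊢
    have h2 := Nat.le_of_dvd (by norm_num) h1
    interval_cases n <;> revert h1 hodd <;> decide

/-- nontrivial symmetries are of Zauner type -/
theorem IsSym.zauner23 (h : IsSym ψ u) (hψ : Fid ψ) {q k : ℕ} [NeZero (q ^ k)]
    (hq : (q = 2 ∧ 1 ≤ k ∧ m + 2 < 2 ^ k) ∨ (q = 3 ∧ 3 ≤ k ∧ m + 2 ≤ 2 * 3 ^ (k - 2)))
    (hd : d = m * q ^ k) (hsq : ¬ IsSquare (d + 1))
    {ρ : G →* Matrix (Fin 2) (Fin 2) (ZMod d)} (hρ : ∀ g, Rep (u g) (ρ g)) {g : G}
    (hg : g ≠ 1) : 3 * (((ρ g).map (red hd)).trace + 1) = 0 := by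
  have : Finite G := h.finite hψ
  have h3 : orderOf g = 3 := by
    have h1 := orderOf_dvd_natCard g
    have h2 : orderOf g ≠ 1 := fun h2 => hg (orderOf_eq_one_iff.1 h2)
    rcases h.main23 hψ hq hd hsq with h4 | h4
    · rw [h4, Nat.dvd_one] at h1
      exact absurd h1 h2
    · rw [h4] at h1
      exact ((Nat.dvd_prime Nat.prime_three).1 h1).resolve_left h2
  rcases hq with ⟨rfl, hk, hm⟩ | ⟨rfl, hk, hm⟩
  · have hdet := det_map hρ hd g
    have hpow : ((ρ g).map (red hd)) ^ 3 = 1 := by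
      rw [← pow_map hd g 3, ← h3, pow_orderOf_eq_one, map_one]
      exact Matrix.map_one _ (map_zero _) (map_one _)
    obtain ⟨F, hF⟩ : ∃ F, F = (ρ g).map (red hd) := ⟨_, rfl⟩
    rw [← hF] at hdet hpow ⊢
    have ht : IsUnit (F.trace - 2) := by
      by_contra hcon
      have h1 := eq_one_of_coprime Nat.prime_two hk rfl hdet hcon (n := 3) (by norm_num) hpow
      rw [hF] at h1
      exact hg (h.kernel hψ hρ hd hm h1)
    have hN : IsUnit (F - 1) := by
      rw [Matrix.isUnit_iff_isUnit_det, det_sub_one hdet]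
      exact ht.neg
    have h1 : (F - 1) * (F * F + F + 1) = 0 := by
      have h2 : (F - 1) * (F * F + F + 1) = F ^ 3 - 1 := by noncomm_ring
      rw [h2, hpow, sub_self]
    have h2 := (hN.mul_right_eq_zero).1 h1
    rw [ch hdet] at h2
    have h4 : ∀ i j, (F.trace + 1) * F i j = 0 := by
      intro i j
      have h5 := congrFun (congrFun h2 i) j
      simp only [Matrix.add_apply, Matrix.sub_apply, Matrix.smul_apply, smul_eq_mul,
        Matrix.zero_apply] at h5
      linear_combination h5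
    have h5 : F.trace + 1 = 0 := by
      rw [Matrix.det_fin_two] at hdet
      linear_combination (-(F.trace + 1)) * hdet + F 1 1 * h4 0 0 - F 1 0 * h4 0 1
    rw [h5, mul_zero]
  · exact h.three_trace hψ hk rfl hd hm hρ h3

end Pool.Agent.Run7.h40.SICS
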