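import Mathlib
import Pool.Agent.Run7.h40.SICS.Three

set_option autoImplicit false

/-! # Prime divisors of the order of the symmetry group in arbitrary dimension -/

namespace Pool.Agent.Run7.h40.SICS

open Finset Matrix
open R503.SIC (Dm Nrm e Fid ov)
open scoped ComplexConjugate MatrixGroups

theorem frob {q : ℕ} [Fact q.Prime] {x y : Matrix (Fin 2) (Fin 2) (ZMod q)} {τ : ZMod q}
    (hxy : x * y = 1) (hyx : y * x = 1) (hsum : x + y = τ • 1) :
    (x ^ (q + 1) - 1) * (x ^ (q - 1) - 1) = 0 := by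
  have hq : 1 ≤ q := (Fact.out : q.Prime).one_lt.le
  have hc : Commute x y := by rw [commute_iff_eq, hxy, hyx]
  have h2 : x ^ q + y ^ q = x + y := by
    rw [← add_pow_char_of_commute q hc, hsum, smul_pow, one_pow, ZMod.pow_card]
  have h4 : x ^ (q + 1) * x ^ (q - 1) = x ^ q * x ^ q := by
    rw [← pow_add, ← pow_add]; congr 1; omega
  have h5 : x ^ (q + 1) = x ^ q * x := pow_succ _ _
  have h6 : x ^ (q - 1) = x ^ q * y := by
    have : x ^ q = x ^ (q - 1) * x := by rw [← pow_succ]; congr 1; omega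
    rw [this, mul_assoc, hxy, mul_one]
  have h7 : x ^ q * y ^ q = 1 := by rw [← hc.mul_pow, hxy, one_pow]
  have h8 : x ^ q * (x ^ q + y ^ q) = x ^ q * (x + y) := by rw [h2]
  rw [mul_add, mul_add, h7, ← h5, ← h6] at h8
  have h9 : x ^ q * x ^ q = x ^ (q + 1) + x ^ (q - 1) - 1 := eq_sub_of_add_eq h8
  rw [sub_mul, mul_sub, one_mul, mul_one, h4, h9]
  abel

theorem frob_det {q : ℕ} [Fact q.Prime] {F : Matrix (Fin 2) (Fin 2) (ZMod q)} (h : F.det = 1) :
    (F ^ (q + 1) - 1) * (F ^ (q - 1) - 1) = 0 := by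
  refine frob (y := F.adjugate) (τ := F.trace) ?_ ?_ ?_
  · rw [Matrix.mul_adjugate, h, one_smul]
  · rw [Matrix.adjugate_mul, h, one_smul]
  · rw [Matrix.adjugate_fin_two, Matrix.trace_fin_two]
    ext i j
    fin_cases i <;> fin_cases j <;> simp [add_comm]

/-- powers prime to the order -/
theorem eq_one_of_pow {M : Type*} [Monoid M] {x : M} {p n : ℕ} (hp : x ^ p = 1)
    (hn : x ^ n = 1) (hc : Nat.Coprime p n) : x = 1 := by
  have h1 : orderOf x ∣ Nat.gcd p n := Nat.dvd_gcd (orderOf_dvd_of_pow_eq_one hp)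
    (orderOf_dvd_of_pow_eq_one hn)
  rw [hc, Nat.dvd_one] at h1
  exact orderOf_eq_one_iff.1 h1

/-- a matrix of determinant one and prime order `p` over `ℤ/ℓ` is trivial if `p` does not divide
`ℓ (ℓ ^ 2 - 1)` -/
theorem trivial_ell {l p : ℕ} (hl : l.Prime) (hp : p.Prime) (hlp : l ≠ p)
    (hdiv : ¬ p ∣ l ^ 2 - 1) {F : Matrix (Fin 2) (Fin 2) (ZMod l)} (h : F.det = 1)
    (hF : F ^ p = 1) : F = 1 := by
  have : Fact l.Prime := ⟨hl⟩
  have : NeZero l := ⟨hl.ne_zero⟩
  have hlp' : ¬ l ∣ p := fun h => hlp ((Nat.prime_dvd_prime_iff_eq hl hp).1 h)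
  have e1 : l ^ 2 - 1 = (l + 1) * (l - 1) := by
    obtain ⟨c, rfl⟩ : ∃ c, l = c + 1 := ⟨l - 1, by have := hl.pos; omega⟩
    simp only [Nat.add_sub_cancel]
    have : (c + 1) ^ 2 = (c + 1 + 1) * c + 1 := by ring
    omega
  have hc1 : Nat.Coprime p (l + 1) :=
    (hp.coprime_iff_not_dvd).2 fun h => hdiv (by rw [e1]; exact h.mul_right _)
  have hc2 : Nat.Coprime p (l - 1) :=
    (hp.coprime_iff_not_dvd).2 fun h => hdiv (by rw [e1]; exact h.mul_left _)
  by_contra hne
  have key : ∀ n, Nat.Coprime p n → IsUnit (F ^ n - 1) := by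
    intro n hn
    have hdet : (F ^ n).det = 1 := by rw [Matrix.det_pow, h, one_pow]
    rw [Matrix.isUnit_iff_isUnit_det, det_sub_one hdet]
    apply IsUnit.neg
    by_contra hcon
    have h1 := eq_one_of_coprime (d := l) (k := 1) hl le_rfl (pow_one l).symm hdet hcon hlp' (by
      rw [← pow_mul, mul_comm, pow_mul, hF, one_pow])
    exact hne (eq_one_of_pow hF h1 hn)
  have h1 := (key _ hc1).mul (key _ hc2)
  rw [frob_det h] at h1
  exact not_isUnit_zero h1

variable {m : ℕ} [NeZero m]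

/-- the same modulo powers of `ℓ` -/
theorem trivial_ell_pow {l j p : ℕ} (hl : l.Prime) (hj : 1 ≤ j) (hp : p.Prime) (hlp : l ≠ p)
    (hdiv : ¬ p ∣ l ^ 2 - 1) {F : Matrix (Fin 2) (Fin 2) (ZMod (l ^ j))} (h : F.det = 1)
    (hF : F ^ p = 1) : F = 1 := by
  have : NeZero (l ^ j) := ⟨(pow_pos hl.pos j).ne'⟩
  have : Fact l.Prime := ⟨hl⟩
  have hlp' : ¬ l ∣ p := fun h => hlp ((Nat.prime_dvd_prime_iff_eq hl hp).1 h)
  refine eq_one_of_coprime (d := l ^ j) (k := j) hl hj rfl h ?_ hlp' hF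
  intro hu
  have hu2 := hu.map (redp hj)
  have h1 : (F.map (redp hj)) = 1 := by
    apply trivial_ell hl hp hlp hdiv
    · have h2 := (redp hj).map_det F
      rw [h, map_one] at h2
      exact h2.symm
    · have h3 : (F ^ p).map (redp hj) = (F.map (redp hj)) ^ p := map_pow (redp hj).mapMatrix F p
      rw [← h3, hF]
      exact Matrix.map_one _ (map_zero _) (map_one _)
  have h3 : redp hj F.trace = 2 := by
    have h4 : redp hj F.trace = (F.map (redp hj)).trace := by
      rw [Matrix.trace_fin_two, Matrix.trace_fin_two, map_add]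
      rfl
    rw [h4, h1, Matrix.trace_one, Fintype.card_fin]
    norm_num
  rw [map_sub, h3, map_ofNat, sub_self] at hu2
  exact not_isUnit_zero hu2

/-- triviality modulo the part prime to `p` -/
theorem dvd_sub {m' q p : ℕ} (hm : m = q * m') (hp : p.Prime) (hq : ∀ l, l.Prime → l ∣ m' → l ≠ p)
    (hdiv : ∀ l, l.Prime → l ∣ m → ¬ p ∣ l ^ 2 - 1) {F : Matrix (Fin 2) (Fin 2) (ZMod m)}
    (h : F.det = 1) (hF : F ^ p = 1) (a b : Fin 2) : m' ∣ ((F - 1) a b).val := by
  rw [Nat.dvd_iff_prime_pow_dvd_dvd]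
  intro l j hl hlj
  rcases Nat.eq_zero_or_pos j with hj | hj
  · rw [hj, pow_zero]; exact one_dvd _
  have hlm' : l ∣ m' := (dvd_pow_self l hj.ne').trans hlj
  have hljm : l ^ j ∣ m := hlj.trans ⟨q, by rw [hm, mul_comm]⟩
  obtain ⟨c, hc⟩ := hljm
  have : NeZero (l ^ j) := ⟨(pow_pos hl.pos j).ne'⟩
  have hd : m = c * l ^ j := by rw [hc, mul_comm]
  have h1 : F.map (red hd) = 1 := by
    apply trivial_ell_pow hl hj hp (hq l hl hlm') (hdiv l hl (hlm'.trans ⟨q, by rw [hm, mul_comm]⟩))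
    · have h2 := (red hd).map_det F
      rw [h, map_one] at h2
      exact h2.symm
    · have h3 : (F ^ p).map (red hd) = (F.map (red hd)) ^ p := map_pow (red hd).mapMatrix F p
      rw [← h3, hF]
      exact Matrix.map_one _ (map_zero _) (map_one _)
  have h2 : red hd ((F - 1) a b) = 0 := by
    have h3 := congrFun (congrFun h1 a) b
    rw [Matrix.map_apply] at h3
    rw [Matrix.sub_apply, map_sub, h3]
    by_cases hab : a = b
    · rw [hab, Matrix.one_apply_eq, Matrix.one_apply_eq, map_one, sub_self]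
    · rw [Matrix.one_apply_ne hab, Matrix.one_apply_ne hab, map_zero, sub_self]
  have h3 : (((F - 1) a b).val : ZMod m) = (F - 1) a b := ZMod.natCast_zmod_val _
  rw [← h3, map_natCast, ZMod.natCast_eq_zero_iff] at h2
  exact h2

/-- counting fixed vectors in a product -/
theorem card_fix_mul {m' q : ℕ} [NeZero q] (hm : m = m' * q) (hc : Nat.Coprime m' q)
    {F : Matrix (Fin 2) (Fin 2) (ZMod m)} (hF : ∀ a b, m' ∣ ((F - 1) a b).val) :
    m' ^ 2 * (univ.filter fun v : Fin 2 → ZMod q => (F.map (red hm)) *ᵥ v = v).card ≤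
      (univ.filter fun v : Fin 2 → ZMod m => F *ᵥ v = v).card := by
  have h0 : m' ^ 2 * (univ.filter fun v : Fin 2 → ZMod q => (F.map (red hm)) *ᵥ v = v).card =
      ((univ : Finset (Fin 2 → Fin m')) ×ˢ
        (univ.filter fun v : Fin 2 → ZMod q => (F.map (red hm)) *ᵥ v = v)).card := by
    rw [Finset.card_product, Finset.card_univ, Fintype.card_fun, Fintype.card_fin, Fintype.card_fin]
  rw [h0]
  apply Finset.card_le_card_of_injOn
    (fun x => fun i => (((x.2 i).val + q * (x.1 i : ℕ) : ℕ) : ZMod m))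
  · rintro ⟨i, x⟩ hx
    simp only [Finset.coe_product, Finset.coe_univ, Set.mem_prod, Set.mem_univ, true_and,
      Finset.coe_filter, Finset.mem_univ, Set.mem_ofPred_eq] at hx ⊢
    obtain ⟨v, hv⟩ : ∃ v : Fin 2 → ZMod m,
      v = fun a => (((x a).val + q * (i a : ℕ) : ℕ) : ZMod m) := ⟨_, rfl⟩
    rw [← hv]
    have hred : (fun a => red hm (v a)) = x := by
      funext a
      rw [hv]
      simp only
      rw [map_natCast]
      push_cast
      rw [ZMod.natCast_zmod_val, ZMod.natCast_self, zero_mul, add_zero]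
    have key : ∀ a, ((F - 1) *ᵥ v) a = 0 := by
      intro a
      obtain ⟨z, hz⟩ : ∃ z, z = ((F - 1) *ᵥ v) a := ⟨_, rfl⟩
      rw [← hz]
      have hz1 : red hm z = 0 := by
        rw [hz, Matrix.sub_mulVec, Matrix.one_mulVec, Pi.sub_apply, map_sub, red_mulVec, hred, hx]
        rw [← congrFun hred a]
        exact sub_self _
      have hzq : q ∣ z.val := by
        have h3 : (z.val : ZMod m) = z := ZMod.natCast_zmod_val _
        rw [← h3, map_natCast, ZMod.natCast_eq_zero_iff] at hz1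
        exact hz1
      have hzm : m' ∣ z.val := by
        -- reduction modulo `m'`
        have hdm : m' ∣ m := ⟨q, hm⟩
        have h4 : ZMod.castHom hdm (ZMod m') z = 0 := by
          rw [hz, Matrix.mulVec, dotProduct, map_sum]
          apply Finset.sum_eq_zero
          intro b _
          rw [map_mul]
          have h5 : ZMod.castHom hdm (ZMod m') ((F - 1) a b) = 0 := by
            have h6 : (((F - 1) a b).val : ZMod m) = (F - 1) a b := ZMod.natCast_zmod_val _
            rw [← h6, map_natCast, ZMod.natCast_eq_zero_iff]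
            exact hF a b
          rw [h5, zero_mul]
        have h3 : (z.val : ZMod m) = z := ZMod.natCast_zmod_val _
        rw [← h3, map_natCast, ZMod.natCast_eq_zero_iff] at h4
        exact h4
      have h7 : m ∣ z.val := by
        obtain ⟨c, hc'⟩ := Nat.Coprime.mul_dvd_of_dvd_of_dvd hc hzm hzq
        exact ⟨c, hc'.trans (by rw [← hm])⟩
      have h8 : z.val = 0 := Nat.eq_zero_of_dvd_of_lt h7 (ZMod.val_lt z)
      exact (ZMod.val_eq_zero z).1 h8
    have h9 : (F - 1) *ᵥ v = 0 := funext key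
    rw [Matrix.sub_mulVec, Matrix.one_mulVec] at h9
    exact sub_eq_zero.1 h9
  · rintro ⟨i, x⟩ - ⟨i', x'⟩ - hxx
    have hlt : ∀ (i : Fin 2 → Fin m') (x : Fin 2 → ZMod q) (a : Fin 2),
        (x a).val + q * (i a : ℕ) < m := by
      intro i x a
      have h1 := ZMod.val_lt (x a)
      have h2 := (i a).2
      have h3 : q * ((i a : ℕ) + 1) ≤ q * m' := Nat.mul_le_mul_left q h2
      rw [hm, mul_comm m' q]
      rw [mul_add, mul_one] at h3
      omega
    have h1 : ∀ a, (x a).val + q * (i a : ℕ) = (x' a).val + q * (i' a : ℕ) := by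
      intro a
      have h2 := congrFun hxx a
      simp only at h2
      rw [ZMod.natCast_eq_natCast_iff, Nat.ModEq, Nat.mod_eq_of_lt (hlt i x a),
        Nat.mod_eq_of_lt (hlt i' x' a)] at h2
      exact h2
    have hqpos : 0 < q := Nat.pos_of_ne_zero (NeZero.ne q)
    have h3 : ∀ a, x a = x' a := by
      intro a
      have h4 := congrArg (fun n => n % q) (h1 a)
      simp only [Nat.add_mul_mod_self_left] at h4
      rw [Nat.mod_eq_of_lt (ZMod.val_lt _), Nat.mod_eq_of_lt (ZMod.val_lt _)] at h4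
      exact ZMod.val_injective q h4
    have h5 : ∀ a, i a = i' a := by
      intro a
      have h6 := h1 a
      rw [h3 a] at h6
      exact Fin.ext (Nat.eq_of_mul_eq_mul_left hqpos (Nat.add_left_cancel h6))
    exact Prod.ext (funext h5) (funext h3)

/-! ## Real inequalities -/

theorem ineq0 {p m n s : ℝ} (hp : 5 ≤ p) (hm : 1 ≤ m) (hn : 1 ≤ n) (hs : m ≤ s)
    (h : (p - 1) * s * (s - 1) ≤ m * n + s) : (p - 1) * m ≤ p ^ 2 * (n + 1) := by
  rcases lt_or_ge m 2 with h2 | h2
  · nlinarith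
  · have h1 : m * ((p - 1) * (m - 1) - 1) ≤ s * ((p - 1) * (s - 1) - 1) := by
      apply mul_le_mul hs _ _ (by linarith)
      · nlinarith
      · nlinarith
    have h3 : m * ((p - 1) * (m - 1) - 1) ≤ m * n := by nlinarith
    have h4 := le_of_mul_le_mul_left h3 (by linarith)
    have h5 : 0 ≤ (p ^ 2 - 1) * n := mul_nonneg (by nlinarith) (by linarith)
    have h6 : 0 ≤ p * (p - 1) := mul_nonneg (by linarith) (by linarith)
    linarith

theorem ineq1 {p m n s : ℝ} (hp : 5 ≤ p) (hm : 1 ≤ m) (hs0 : 0 ≤ s)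
    (hs : m ^ 2 * p ≤ s ^ 2) (h : (p - 1) * s * (s - 1) ≤ (m * p) * n + s) :
    1 < n ∧ (p - 1) * (m * p) ≤ p ^ 2 * (n + 1) := by
  obtain ⟨w, hw⟩ : ∃ w, w = Real.sqrt p := ⟨_, rfl⟩
  have hw0 : 0 ≤ w := by rw [hw]; exact Real.sqrt_nonneg _
  have hw2 : w ^ 2 = p := by rw [hw]; exact Real.sq_sqrt (by linarith)
  have hw2' : 2 < w := by nlinarith
  have hwp : w ≤ p := by nlinarith
  have hws : m * w ≤ s := by
    have h1 : (m * w) ^ 2 ≤ s ^ 2 := by rw [mul_pow, hw2]; exact hs
    exact le_of_sq_le_sq h1 hs0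
  have hmw : 2 < m * w := by nlinarith
  have h1 : 0 ≤ (s - m * w) * ((p - 1) * (s + m * w) - p) := by
    apply mul_nonneg (by linarith)
    nlinarith
  have h2 : (p - 1) * (m * w) ^ 2 - p * (m * w) ≤ m * p * n := by nlinarith
  have h3 : p * m * ((p - 1) * m - w) ≤ p * m * n := by
    have e : (p - 1) * (m * w) ^ 2 - p * (m * w) = p * m * ((p - 1) * m - w) := by
      rw [mul_pow, hw2]; ring
    rw [← e]
    linarith
  have h4 := le_of_mul_le_mul_left h3 (by positivity)
  have hn : 1 < n := by nlinarith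
  refine ⟨hn, ?_⟩
  have h5 : (p - 1) * m ≤ p * (n + 1) := by
    have h6 : 0 ≤ (p - 1) * n := mul_nonneg (by linarith) (by linarith)
    linarith
  nlinarith

theorem ineq2 {p m n q s : ℝ} (hp : 5 ≤ p) (hm : 1 ≤ m) (hq : p ≤ q)
    (hs : m * q ≤ s) (h : (p - 1) * s * (s - 1) ≤ (m * (p * q)) * n + s) :
    1 < n ∧ (p - 1) * (m * (p * q)) ≤ p ^ 2 * (n + 1) := by
  have hmq : 5 ≤ m * q := by nlinarith
  have h1 : m * q * ((p - 1) * (m * q - 1) - 1) ≤ s * ((p - 1) * (s - 1) - 1) := by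
    apply mul_le_mul hs _ _ (by linarith)
    · nlinarith
    · nlinarith
  have h3 : m * q * ((p - 1) * (m * q - 1) - 1) ≤ m * q * (p * n) := by nlinarith
  have h4 := le_of_mul_le_mul_left h3 (by linarith)
  constructor
  · nlinarith
  · have h5 : (p - 1) * (m * q) ≤ p * (n + 1) := by nlinarith
    nlinarith

/-! ## The main theorem -/

variable {d : ℕ} [NeZero d] {ψ : ZMod d → ℂ} {G : Type*} [Group G]
  {u : G →* Matrix (ZMod d) (ZMod d) ℂ}

theorem IsSym.prime_div (h : IsSym ψ u) (hψ : Fid ψ) {p n : ℕ} (hp : p.Prime) (h5 : 5 ≤ p)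
    {g : G} (hg : orderOf g = p) (hd : d = n * m)
    (hdiv : ∀ l, l.Prime → l ∣ m → ¬ p ∣ l ^ 2 - 1) :
    1 < n ∧ (p - 1) * m ≤ p ^ 2 * (n + 1) := by
  obtain ⟨ρ, hρ⟩ := h.exists_rho
  have hmpos : 0 < m := Nat.pos_of_ne_zero (NeZero.ne m)
  have hnpos : 0 < n := by
    rcases Nat.eq_zero_or_pos n with h0 | h0
    · rw [h0, zero_mul] at hd
      exact absurd hd (NeZero.ne d)
    · exact h0
  have hg1 : g ≠ 1 := by
    rintro rfl
    rw [orderOf_one] at hg
    exact hp.one_lt.ne hg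
  obtain ⟨H, hH⟩ : ∃ H, H = (ρ g).map (red hd) := ⟨_, rfl⟩
  have hdet : H.det = 1 := by rw [hH]; exact det_map hρ hd g
  have hpow : H ^ p = 1 := by
    rw [hH, ← pow_map hd g p, ← hg, pow_orderOf_eq_one, map_one]
    exact Matrix.map_one _ (map_zero _) (map_one _)
  obtain ⟨s, hs0, hs2, hs⟩ := h.prime_ineq' hψ hρ hp hg
  have hle := card_fix_le hd (ρ g)
  rw [← hH] at hle
  have hlt := h.card_lt hψ hρ hg1
  have hp5 : (5 : ℝ) ≤ p := by exact_mod_cast h5
  have hdr : (d : ℝ) = m * n := by rw [hd]; push_cast; ring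
  rw [hdr] at hs
  have hcast : ∀ x y : ℕ, ((p : ℝ) - 1) * x ≤ (p : ℝ) ^ 2 * (y + 1) →
      (p - 1) * x ≤ p ^ 2 * (y + 1) := by
    intro x y hxy
    have h1 : (((p - 1) * x : ℕ) : ℝ) ≤ ((p ^ 2 * (y + 1) : ℕ) : ℝ) := by
      rw [Nat.cast_mul, Nat.cast_sub hp.one_lt.le]
      push_cast
      exact hxy
    exact_mod_cast h1
  obtain ⟨k, m', hm', hmk⟩ := Nat.exists_eq_pow_mul_and_not_dvd (NeZero.ne m) p hp.ne_one
  have hm'pos : 0 < m' := by
    rcases Nat.eq_zero_or_pos m' with h0 | h0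
    · rw [h0, mul_zero] at hmk
      omega
    · exact h0
  have hsub := dvd_sub hmk hp (fun l hl hlm hlp => hm' (hlp ▸ hlm)) hdiv hdet hpow
  rcases Nat.lt_or_ge 0 k with hk | hk
  · -- `p` divides `m`
    have : NeZero (p ^ k) := ⟨(pow_pos hp.pos k).ne'⟩
    have hm2 : m = m' * p ^ k := by rw [hmk, mul_comm]
    have hcop : Nat.Coprime m' (p ^ k) :=
      Nat.Coprime.pow_right k ((hp.coprime_iff_not_dvd.2 hm').symm)
    have hmul := (card_fix_mul hm2 hcop hsub).trans hle
    have hdet2 : (H.map (red hm2)).det = 1 := by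
      have h2 := (red hm2).map_det H
      rw [hdet, map_one] at h2
      exact h2.symm
    have hpow2 : (H.map (red hm2)) ^ p = 1 := by
      have h3 : (H ^ p).map (red hm2) = (H.map (red hm2)) ^ p := map_pow (red hm2).mapMatrix H p
      rw [← h3, hpow]
      exact Matrix.map_one _ (map_zero _) (map_one _)
    have hm'1 : (1 : ℝ) ≤ m' := by exact_mod_cast hm'pos
    rcases Nat.lt_or_ge 1 k with hk2 | hk2
    · have h2 := card_fix_two hp h5 hk2 rfl hdet2 hpow2
      have h3 : m' ^ 2 * (p ^ (k - 1) * p ^ (k - 1)) ≤ (Fix (ρ g)).card :=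
        (Nat.mul_le_mul_left _ h2).trans hmul
      have h4 : ((m' : ℝ) * ((p ^ (k - 1) : ℕ) : ℝ)) ^ 2 ≤ s ^ 2 := by
        rw [hs2, mul_pow]
        have : ((m' ^ 2 * (p ^ (k - 1) * p ^ (k - 1)) : ℕ) : ℝ) ≤ ((Fix (ρ g)).card : ℝ) := by
          exact_mod_cast h3
        rw [← pow_two] at this
        push_cast at this ⊢
        exact this
      have e2 : p ^ k = p * p ^ (k - 1) := by
        rw [← pow_succ']; congr 1; omega
      have hq : (p : ℝ) ≤ ((p ^ (k - 1) : ℕ) : ℝ) := by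
        have : p ^ 1 ≤ p ^ (k - 1) := Nat.pow_le_pow_right hp.pos (by omega)
        rw [pow_one] at this
        exact_mod_cast this
      have e3 : (m : ℝ) = m' * (p * ((p ^ (k - 1) : ℕ) : ℝ)) := by
        rw [hm2, e2]
        push_cast
        ring
      have h5' := ineq2 (p := (p : ℝ)) (m := (m' : ℝ)) (n := (n : ℝ))
        (q := ((p ^ (k - 1) : ℕ) : ℝ)) (s := s) hp5 hm'1 hq (le_of_sq_le_sq h4 hs0)
        (by rw [← e3]; exact hs)
      rw [← e3] at h5'
      exact ⟨by exact_mod_cast h5'.1, hcast m n h5'.2⟩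
    · have hk1 : k = 1 := by omega
      have h2 : p ≤ (univ.filter fun v : Fin 2 → ZMod (p ^ k) =>
          (H.map (red hm2)) *ᵥ v = v).card := by
        subst hk1
        have hp' : (p ^ 1).Prime := by rw [pow_one]; exact hp
        have := card_fix_one hp' hdet2
          ((congrArg (fun e => (H.map (red hm2)) ^ e) (pow_one p)).trans hpow2)
        exact (pow_one p).symm.le.trans this
      have h3 : m' ^ 2 * p ≤ (Fix (ρ g)).card := (Nat.mul_le_mul_left _ h2).trans hmul
      have h4 : (m' : ℝ) ^ 2 * p ≤ s ^ 2 := by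
        rw [hs2]
        exact_mod_cast h3
      have e3 : (m : ℝ) = m' * p := by
        rw [hm2, hk1, pow_one]
        push_cast
        ring
      have h5' := ineq1 (p := (p : ℝ)) (m := (m' : ℝ)) (n := (n : ℝ)) (s := s) hp5 hm'1 hs0 h4
        (by rw [← e3]; exact hs)
      rw [← e3] at h5'
      exact ⟨by exact_mod_cast h5'.1, hcast m n h5'.2⟩
  · -- `p` does not divide `m`
    have hk0 : k = 0 := by omega
    rw [hk0, pow_zero, one_mul] at hmk
    rw [← hmk] at hsub
    have hH1 : H = 1 := by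
      ext a b
      have h1 : ((H - 1) a b).val = 0 := Nat.eq_zero_of_dvd_of_lt (hsub a b) (ZMod.val_lt _)
      have h2 := (ZMod.val_eq_zero _).1 h1
      rw [Matrix.sub_apply] at h2
      exact sub_eq_zero.1 h2
    have h2 : (univ.filter fun v : Fin 2 → ZMod m => H *ᵥ v = v).card = m ^ 2 := by
      rw [hH1]
      simp
    rw [h2] at hle
    have h3 : m ^ 2 ≤ (Fix (ρ g)).card := hle
    have hm1 : (1 : ℝ) ≤ m := by exact_mod_cast hmpos
    have hn1 : (1 : ℝ) ≤ n := by exact_mod_cast hnpos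
    have h4 : (m : ℝ) ^ 2 ≤ s ^ 2 := by
      rw [hs2]
      exact_mod_cast h3
    refine ⟨?_, hcast m n (ineq0 (p := (p : ℝ)) (s := s) hp5 hm1 hn1 (le_of_sq_le_sq h4 hs0) hs)⟩
    by_contra hcon
    have hn : n = 1 := by omega
    rw [hn, one_mul] at hd
    have e : d ^ 2 = m ^ 2 := by rw [hd]
    rw [e] at hlt
    exact absurd (h3.trans_lt hlt) (lt_irrefl _)

end Pool.Agent.Run7.h40.SICS
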